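import Mathlib

/-!
# Closed sets under a function from finite sets to countable sets
-/

set_option autoImplicit false

open Cardinal Set

universe u

namespace Pool.Agent.Helper15.CQ

/-- `N` is closed under `Φ` -/
def Closed {W : Type*} (Φ : Finset W → Set W) (N : Set W) : Prop :=
  ∀ e : Finset W, e.Nonempty → (e : Set W) ⊆ N → Φ e ⊆ N

/-- the smallest closed set containing `E` -/
def cl {W : Type*} (Φ : Finset W → Set W) (E : Set W) : Set W :=
  ⋂₀ {N | Closed Φ N ∧ E ⊆ N}

section

variable {W : Type*} {Φ : Finset W → Set W}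

theorem closed_sInter {T : Set (Set W)} (h : ∀ N ∈ T, Closed Φ N) : Closed Φ (⋂₀ T) := by
  intro e he hs
  exact subset_sInter fun N hN => h N hN e he (hs.trans (sInter_subset_of_mem hN))

theorem closed_cl (E : Set W) : Closed Φ (cl Φ E) := closed_sInter fun _ h => h.1

theorem subset_cl (E : Set W) : E ⊆ cl Φ E := subset_sInter fun _ h => h.2

theorem cl_min {E N : Set W} (h : Closed Φ N) (hE : E ⊆ N) : cl Φ E ⊆ N := sInter_subset_of_mem ⟨h, hE⟩

theorem cl_mono {E E' : Set W} (h : E ⊆ E') : cl Φ E ⊆ cl Φ E' := cl_min (closed_cl _) (h.trans (subset_cl _))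

theorem countable_finset_subset {E : Set W} (h : E.Countable) : {e : Finset W | (e : Set W) ⊆ E}.Countable := by
  have h1 := (Set.countable_setOf_finite_subset h).preimage (f := fun e : Finset W => (e : Set W)) Finset.coe_injective
  refine h1.mono fun e he => ?_
  exact ⟨e.finite_toSet, he⟩

theorem closed_iUnion {ι : Type*} [Nonempty ι] {N : ι → Set W} (hd : Directed (· ⊆ ·) N) (h : ∀ i, Closed Φ (N i)) :
    Closed Φ (⋃ i, N i) := by
  intro e he hs
  obtain ⟨i, hi⟩ := hd.exists_mem_subset_of_finset_subset_biUnion hs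
  exact (h i e he hi).trans (subset_iUnion _ i)

/-- the closure of a countable set is countable -/
theorem countable_cl (hΦ : ∀ e, (Φ e).Countable) {E : Set W} (hE : E.Countable) : (cl Φ E).Countable := by
  let s : ℕ → Set W := fun n => Nat.rec E (fun _ A => A ∪ ⋃ e ∈ {e : Finset W | (e : Set W) ⊆ A}, Φ e) n
  have h0 : s 0 = E := rfl
  have hs : ∀ n, s (n + 1) = s n ∪ ⋃ e ∈ {e : Finset W | (e : Set W) ⊆ s n}, Φ e := fun n => rfl
  have hc : ∀ n, (s n).Countable := by
    intro n
    induction n with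
    | zero => exact hE
    | succ n ih =>
      rw [hs]
      exact ih.union ((countable_finset_subset ih).biUnion fun e _ => hΦ e)
  have hm : Monotone s := monotone_nat_of_le_succ fun n => by rw [hs]; exact subset_union_left
  refine (Set.countable_iUnion hc).mono (cl_min ?_ ?_)
  · intro e he hsub
    obtain ⟨n, hn⟩ := hm.directed_le.exists_mem_subset_of_finset_subset_biUnion hsub
    refine subset_trans ?_ (subset_iUnion s (n + 1))
    rw [hs]
    exact subset_union_of_subset_right (subset_biUnion_of_mem (u := fun e : Finset W => Φ e) hn) _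
  · exact subset_iUnion_of_subset 0 subset_rfl

end

/-- projection of closed sets -/
theorem project {A B : Type*} (Ψ : Finset (A ⊕ B) → Set (A ⊕ B)) (hΨ : ∀ e, (Ψ e).Countable) :
    ∃ Φ : Finset A → Set A, (∀ e, (Φ e).Countable) ∧ ∀ N : Set A, Closed Φ N →
      ∃ N' : Set (A ⊕ B), Closed Ψ N' ∧ Sum.inl ⁻¹' N' = N ∧ (N.Countable → N'.Countable) := by
  classical
  let Φ : Finset A → Set A := fun e => Sum.inl ⁻¹' cl Ψ (Sum.inl '' (e : Set A))
  refine ⟨Φ, fun e => (countable_cl hΨ ((Finset.countable_toSet e).image _)).preimage Sum.inl_injective, fun N hN => ?_⟩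
  let T := {e : Finset A // e.Nonempty ∧ (e : Set A) ⊆ N}
  rcases N.eq_empty_or_nonempty with rfl | ⟨x0, hx0⟩
  · refine ⟨∅, ?_, rfl, fun _ => countable_empty⟩
    intro e he hs
    obtain ⟨x, hx⟩ := he
    exact absurd (hs hx) (by simp)
  let t0 : T := ⟨{x0}, Finset.singleton_nonempty _, by simpa using hx0⟩
  haveI : Nonempty T := ⟨t0⟩
  let F : T → Set (A ⊕ B) := fun e => cl Ψ (Sum.inl '' (e.1 : Set A))
  have hF : Directed (· ⊆ ·) F := by
    intro e e'
    refine ⟨⟨e.1 ∪ e'.1, ?_, ?_⟩, ?_, ?_⟩
    · exact e.2.1.mono Finset.subset_union_left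
    · rw [Finset.coe_union]
      exact union_subset e.2.2 e'.2.2
    · exact cl_mono (image_mono (by rw [Finset.coe_union]; exact subset_union_left))
    · exact cl_mono (image_mono (by rw [Finset.coe_union]; exact subset_union_right))
  refine ⟨⋃ e, F e, closed_iUnion hF fun e => closed_cl _, ?_, ?_⟩
  · ext x
    constructor
    · intro hx
      obtain ⟨e, he⟩ := mem_iUnion.1 hx
      exact hN e.1 e.2.1 e.2.2 he
    · intro hx
      refine mem_iUnion.2 ⟨⟨{x}, Finset.singleton_nonempty _, by simpa using hx⟩, ?_⟩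
      exact subset_cl _ ⟨x, by simp, rfl⟩
  · intro hc
    haveI : Countable T := by
      have h1 := (countable_finset_subset hc).to_subtype
      exact Function.Injective.countable (f := fun e : T => (⟨e.1, e.2.2⟩ : {e : Finset A | (e : Set A) ⊆ N}))
        fun e e' h => Subtype.ext (congrArg (fun z => z.1) h)
    exact countable_iUnion fun e => countable_cl hΨ ((Finset.countable_toSet e.1).image _)

/-- `A` contains no infinite clique of the complex `S` -/
def Thin {V : Type*} (S : Set (Finset V)) (A : Set V) : Prop :=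
  ∀ B ⊆ A, (∀ e : Finset V, (e : Set V) ⊆ B → e ∈ S) → B.Finite

/-- clique reflection at the continuum -/
def CR : Prop :=
  ∀ (V : Type u) (S : Set (Finset V)), (∀ e ∈ S, ∀ e' ⊆ e, e' ∈ S) →
    (∀ W : Set V, #W ≤ 𝔠 → ∃ f : V → ℕ, ∀ n, Thin S {v | v ∈ W ∧ f v = n}) →
    ∃ f : V → ℕ, ∀ n, Thin S {v | f v = n}

end Pool.Agent.Helper15.CQ
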