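import Pool.Agent.Helper15.CQ.Trans

/-!
# Transversal compactness from Rado's conjecture (at the continuum)
-/

set_option autoImplicit false

open Cardinal Set

universe u

namespace Pool.Agent.Helper15.CQ

/-- Rado's conjecture at the continuum -/
def TR : Prop :=
  ∀ (T : Type u) [PartialOrder T] [WellFoundedLT T], (∀ t : T, IsChain (· ≤ ·) (Set.Iio t)) →
    (∀ W : Set T, #W ≤ 𝔠 → ∃ f : T → ℕ, ∀ s ∈ W, ∀ t ∈ W, f s = f t → ¬ s < t) →
    ∃ f : T → ℕ, ∀ s ∈ (univ : Set T), ∀ t ∈ (univ : Set T), f s = f t → ¬ s < t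

section

variable {Ω I : Type u} {a : I → Set Ω} {nm : I → Ω} {idx : Set Ω → I}

instance : PartialOrder (V a nm idx) where
  le := Le
  le_refl := Le.rfl'
  le_trans := fun _ _ _ => Le.trans
  le_antisymm := fun _ _ => Le.antisymm'

theorem lt_iff (v w : V a nm idx) : v < w ↔ Lt v w := by
  constructor
  · intro h
    exact Le.lt_of_ne h.le fun h' => h.ne (Le.eq_of_top h.le h')
  · intro h
    exact lt_of_le_not_ge h.le h.not_le

instance : WellFoundedLT (V a nm idx) where
  wf := by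
    have h : (fun v w : V a nm idx => v < w) = Lt := by
      funext v w
      exact propext (lt_iff v w)
    rw [h]
    exact wf_lt

/-- small sets of nodes are countable unions of antichains -/
theorem local_part (ha : ∀ i, (a i).Countable) (hne : ∀ i, (a i).Nonempty)
    (hJ : ∀ J : Set I, #J ≤ 𝔠 → ∃ h : I → Ω, InjOn h J ∧ ∀ i ∈ J, h i ∈ a i)
    (W : Set (V a nm idx)) (hW : #W ≤ 𝔠) :
    ∃ f : V a nm idx → ℕ, ∀ v ∈ W, ∀ w ∈ W, f v = f w → ¬ v < w := by
  classical
  let J : Set I := ⋃ v ∈ W, idx '' v.1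
  have hJc : #J ≤ 𝔠 := by
    refine (mk_biUnion_le (fun v : V a nm idx => idx '' v.1) W).trans ?_
    have h1 : ⨆ v : W, #(idx '' (v : V a nm idx).1) ≤ 𝔠 := by
      apply ciSup_le'
      intro v
      exact ((v.1.2.countable.image idx).le_aleph0).trans aleph0_le_continuum
    exact (mul_le_mul' hW h1).trans (by rw [continuum_mul_self])
  obtain ⟨h, hinj, hmem⟩ := hJ J hJc
  let h' : I → Ω := fun i => if i ∈ J then h i else (hne i).some
  have h'J : ∀ i ∈ J, h' i = h i := fun i hi => if_pos hi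
  have h'mem : ∀ i, h' i ∈ a i := by
    intro i
    by_cases hi : i ∈ J
    · rw [h'J i hi]
      exact hmem i hi
    · have : h' i = (hne i).some := if_neg hi
      rw [this]
      exact (hne i).some_mem
  have h'inj : InjOn h' J := by
    intro i hi j hj hij
    rw [h'J i hi, h'J j hj] at hij
    exact hinj hi hj hij
  have henc : ∀ M : Set Ω, ∃ e : Ω → ℕ, Bad a nm idx M → InjOn e M := by
    intro M
    by_cases hM : Bad a nm idx M
    · obtain ⟨e, he⟩ := countable_iff_exists_injOn.1 hM.1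
      exact ⟨e, fun _ => he⟩
    · exact ⟨fun _ => 0, fun h => absurd h hM⟩
  choose enc henc using henc
  let x : V a nm idx → Ω := fun v => h' (idx (top v))
  have hx : ∀ v, x v ∈ top v := fun v => (v.2.bad _ (top_mem v)).2.2 (h'mem _)
  choose F hF using exists_col x hx enc
  refine ⟨fun v => Encodable.encode (F v), fun v hv w hw he hlt => hlt.ne ?_⟩
  have h1 : F v = F w := Encodable.encode_injective he
  refine col_inj henc h'inj (x := x) (fun _ => rfl) (F v) v w (fun M hM => ?_) (hF v) (h1 ▸ hF w) hlt.le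
  exact mem_biUnion hw ⟨M, hM, rfl⟩

end

/-- TRANSVERSAL COMPACTNESS from Rado's conjecture -/
theorem transversal_rc (hTR : TR.{u}) {Ω I : Type u} (a : I → Set Ω) (ha : ∀ i, (a i).Countable)
    (hne : ∀ i, (a i).Nonempty) (nm : I → Ω)
    (hJ : ∀ J : Set I, #J ≤ 𝔠 → ∃ h : I → Ω, InjOn h J ∧ ∀ i ∈ J, h i ∈ a i) :
    ∃ Φ : Finset Ω → Set Ω, (∀ e, (Φ e).Countable) ∧ ∀ N, Closed Φ N → ∀ i, nm i ∉ N → ¬ a i ⊆ N := by
  classical
  rcases isEmpty_or_nonempty I with hI | hI
  · exact ⟨fun _ => ∅, fun _ => countable_empty, fun N _ i => (hI.false i).elim⟩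
  have h0 : ∀ M : Set Ω, ∃ i : I, (∃ j, nm j ∉ M ∧ a j ⊆ M) → nm i ∉ M ∧ a i ⊆ M := by
    intro M
    by_cases h : ∃ j, nm j ∉ M ∧ a j ⊆ M
    · obtain ⟨j, hj⟩ := h
      exact ⟨j, fun _ => hj⟩
    · exact ⟨Classical.arbitrary I, fun h' => absurd h' h⟩
  choose idx hidx using h0
  have red : (∃ Φ : Finset Ω → Set Ω, (∀ e, (Φ e).Countable) ∧ ∀ N, Closed Φ N → N.Nonempty → ¬ Bad a nm idx N) →
      ∃ Φ : Finset Ω → Set Ω, (∀ e, (Φ e).Countable) ∧ ∀ N, Closed Φ N → ∀ i, nm i ∉ N → ¬ a i ⊆ N := by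
    rintro ⟨Φ, h1, h2⟩
    refine ⟨Φ, h1, fun N hN i hi hsub => ?_⟩
    have h3 : cl Φ (a i) ⊆ N := cl_min hN hsub
    have h4 := hidx (cl Φ (a i)) ⟨i, fun h => hi (h3 h), subset_cl _⟩
    exact h2 (cl Φ (a i)) (closed_cl _) ((hne i).mono (subset_cl _)) ⟨countable_cl h1 (ha i), h4⟩
  by_cases hcof : ∀ A : Set Ω, A.Countable → ∃ M, A ⊆ M ∧ Bad a nm idx M
  · apply red
    obtain ⟨f, hf⟩ := hTR (V a nm idx) (fun t v hv w hw _ => by
      rcases ((lt_iff _ _).1 hv).le.total ((lt_iff _ _).1 hw).le with h | h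
      · exact Or.inl h
      · exact Or.inr h) (local_part ha hne hJ)
    refine global hcof f fun n B hB hclique => ?_
    apply Set.Subsingleton.finite
    intro v hv w hw
    have h1 : ({v, w} : Finset (V a nm idx)) ∈ {e : Finset (V a nm idx) | ∀ v ∈ e, ∀ w ∈ e, Le v w ∨ Le w v} := by
      apply hclique
      intro z hz
      simp only [Finset.coe_insert, Finset.coe_singleton, mem_insert_iff, mem_singleton_iff] at hz
      rcases hz with rfl | rfl
      · exact hv
      · exact hw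
    by_contra hne'
    rcases h1 v (by simp) w (by simp) with h2 | h2
    · exact hf v trivial w trivial ((hB hv).trans (hB hw).symm) (lt_of_le_of_ne (α := V a nm idx) h2 hne')
    · exact hf w trivial v trivial ((hB hw).trans (hB hv).symm) (lt_of_le_of_ne (α := V a nm idx) h2 (Ne.symm hne'))
  · apply red
    simp only [not_forall] at hcof
    obtain ⟨A, hA, hA'⟩ := hcof
    refine ⟨fun _ => A, fun _ => hA, fun N hN hNne hbad => hA' ⟨N, ?_, hbad⟩⟩
    obtain ⟨x, hx⟩ := hNne
    exact hN {x} (Finset.singleton_nonempty _) (by simpa using hx)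

end Pool.Agent.Helper15.CQ
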