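import Pool.Agent.Helper19.QR.SF
import Pool.Agent.Helper19.QR.Trees
import Pool.Agent.Helper15.CQ.TransRC

/-!
# Reflection of sigma-discreteness at the continuum

`SigmaDiscrete A`: the set `A` of sequences (a subset of the metric space `ℕ → D`, `D` discrete) is
sigma-discrete. `DR`: a set of sequences all of whose subsets of size at most the continuum are
sigma-discrete is sigma-discrete. We prove that Rado's conjecture at the continuum implies `DR`, and the
closed-set form of `DR`.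
-/

set_option autoImplicit false

open Set Cardinal

namespace Pool.Agent.Helper15.CQ

open Pool.Agent.Helper19.QR (CV Clo pre SFree RC Special sfree_of_clo)

/-- `A` is the union of sets `A_0, A_1, ...` such that different members of `A_n` differ at a place `< n` -/
def SigmaDiscrete {D : Type} (A : Set (ℕ → D)) : Prop :=
  ∃ m : (ℕ → D) → ℕ, ∀ a ∈ A, ∀ b ∈ A, m a = m b → (∀ k < m a, a k = b k) → a = b

/-- reflection of sigma-discreteness at the continuum -/
def DR : Prop :=
  ∀ (D : Type) (A : Set (ℕ → D)), (∀ B ⊆ A, #B ≤ 𝔠 → SigmaDiscrete B) → SigmaDiscrete A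

/-- the initial segment of length `n + 1` -/
def ini {D : Type} (a : ℕ → D) (n : ℕ) : List D := (List.range (n + 1)).map a

theorem ini_mem {D : Type} (a : ℕ → D) (n : ℕ) : ini a n ∈ pre a := ⟨n, rfl⟩

theorem ini_length {D : Type} (a : ℕ → D) (n : ℕ) : (ini a n).length = n + 1 := by simp [ini]

theorem ini_eq_iff {D : Type} (a b : ℕ → D) (n : ℕ) : ini a n = ini b n ↔ ∀ k < n + 1, a k = b k := by
  simp [ini]

theorem ini_inj {D : Type} {a : ℕ → D} {n m : ℕ} (h : ini a n = ini a m) : n = m := by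
  have := congrArg List.length h
  rw [ini_length, ini_length] at this
  omega

theorem ini_eq_ini {D : Type} {a b : ℕ → D} {n m : ℕ} (h : ini a n = ini b m) : n = m ∧ ∀ k < n + 1, a k = b k := by
  have h1 := congrArg List.length h
  rw [ini_length, ini_length] at h1
  have h2 : n = m := by omega
  subst h2
  exact ⟨rfl, (ini_eq_iff _ _ _).1 h⟩

theorem ini_prefix {D : Type} (a : ℕ → D) {n m : ℕ} (h : n ≤ m) : ini a n <+: ini a m := by
  rw [ini, ini]
  apply List.IsPrefix.map
  have h1 : List.range (n + 1) = (List.range (m + 1)).take (n + 1) := by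
    rw [List.take_range, min_eq_left (by omega)]
  rw [h1]
  exact List.take_prefix _ _

theorem pre_countable {D : Type} (a : ℕ → D) : (pre a).Countable := countable_range _

theorem pre_infinite {D : Type} (a : ℕ → D) : (pre a).Infinite :=
  infinite_range_of_injective fun _ _ h => ini_inj h

/-- an injective choice of initial segments gives sigma-discreteness -/
theorem sd_of_choice {D : Type} {A : Set (ℕ → D)} (h : (ℕ → D) → List D) (h1 : ∀ a ∈ A, h a ∈ pre a)
    (h2 : InjOn h A) : SigmaDiscrete A := by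
  refine ⟨fun a => (h a).length, fun a ha b hb hab hk => h2 ha hb ?_⟩
  obtain ⟨n, hn⟩ := h1 a ha
  obtain ⟨m, hm⟩ := h1 b hb
  have hn' : h a = ini a n := hn.symm
  have hm' : h b = ini b m := hm.symm
  simp only [hn', hm', ini_length] at hab hk
  have : n = m := by omega
  subst this
  rw [hn', hm', ini_eq_iff]
  exact hk

/-- sigma-discreteness gives an injective choice of initial segments -/
theorem choice_of_sd {D : Type} {A : Set (ℕ → D)} (h : SigmaDiscrete A) :
    ∃ m : (ℕ → D) → ℕ, InjOn (fun a => ini a (m a)) A := by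
  obtain ⟨m, hm⟩ := h
  refine ⟨m, fun a ha b hb hab => ?_⟩
  obtain ⟨h1, h2⟩ := ini_eq_ini hab
  exact hm a ha b hb h1 fun k hk => h2 k (by omega)

/-- closed sets which see the initial segments give sigma-discreteness -/
theorem sd_of_clo {D : Type} (A : Set (ℕ → D)) (Φ : Finset ((ℕ → D) ⊕ List D) → Set ((ℕ → D) ⊕ List D))
    (hΦ : CV Φ) (h : ∀ N, Clo Φ N → ∀ a ∈ A, Sum.inl a ∉ N → ∃ l ∈ pre a, Sum.inr l ∉ N) :
    SigmaDiscrete A := by
  classical
  let Φ' : Finset ((ℕ → D) ⊕ List D) → Set ((ℕ → D) ⊕ List D) := fun e =>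
    Φ e ∪ Sum.inr '' ⋃ l ∈ {l : List D | Sum.inr l ∈ e}, {l' | l' <+: l}
  have hΦ' : CV Φ' := by
    intro e
    refine (hΦ e).union (Countable.image ?_ _)
    refine Countable.biUnion ((e.countable_toSet).preimage Sum.inr_injective) fun l _ => ?_
    have : {l' : List D | l' <+: l} = {l' | l' ∈ l.inits} := by
      ext l'
      simp
    rw [this]
    exact (List.finite_toSet _).countable
  have h1 : SFree (fun a : ℕ → D => pre a) A := by
    refine sfree_of_clo (I := ℕ → D) (B := List D) _ A (fun a _ => pre_countable a) (fun a _ => pre_infinite a)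
      Φ' hΦ' fun N hN a ha haN => ?_
    have hN1 : Clo Φ N := fun e he hs => subset_union_left.trans (hN e he hs)
    obtain ⟨l, ⟨n, hn⟩, hlN⟩ := h N hN1 a ha haN
    have hn' : l = ini a n := hn.symm
    subst hn'
    refine ((Set.finite_lt_nat n).image (ini a)).subset ?_
    rintro b ⟨⟨m, hm⟩, hb⟩
    have hm' : b = ini a m := hm.symm
    subst hm'
    refine ⟨m, ?_, rfl⟩
    by_contra hc
    apply hlN
    refine hN {Sum.inr (ini a m)} (Finset.singleton_nonempty _) (by simpa using hb) ?_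
    refine Or.inr ⟨ini a n, ?_, rfl⟩
    exact mem_biUnion (x := ini a m) (by simp) (ini_prefix a (not_lt.1 hc))
  obtain ⟨g, hg, hg'⟩ := h1 fun _ => ∅
  exact sd_of_choice g (fun a ha => (hg a ha).1) hg'

/-- the closed-set form of `DR` -/
theorem tc_pre (h : DR) {I D : Type} (E : Set I) (c : I → ℕ → D)
    (hloc : ∀ J ⊆ E, #J ≤ 𝔠 → ∃ h : I → List D, (∀ i ∈ J, h i ∈ pre (c i)) ∧ InjOn h J) :
    ∃ Φ : Finset (I ⊕ List D) → Set (I ⊕ List D), CV Φ ∧
      ∀ N, Clo Φ N → ∀ i ∈ E, Sum.inl i ∉ N → ∃ b ∈ pre (c i), Sum.inr b ∉ N := by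
  classical
  rcases isEmpty_or_nonempty I with hI | hI
  · exact ⟨fun _ => ∅, fun _ => countable_empty, fun N _ i => (hI.false i).elim⟩
  have hsd : SigmaDiscrete (c '' E) := by
    apply h
    intro B hB hBc
    have hB' : ∀ b, ∃ i : I, b ∈ B → i ∈ E ∧ c i = b := by
      intro b
      by_cases hb : b ∈ B
      · obtain ⟨i, hi, hi'⟩ := hB hb
        exact ⟨i, fun _ => ⟨hi, hi'⟩⟩
      · exact ⟨Classical.arbitrary I, fun h => absurd h hb⟩
    choose s hs using hB'
    have hs1 : ∀ {b}, b ∈ B → s b ∈ E := fun hb => (hs _ hb).1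
    have hs2 : ∀ {b}, b ∈ B → c (s b) = b := fun hb => (hs _ hb).2
    have hinj : InjOn s B := fun a ha b hb hab => by rw [← hs2 ha, ← hs2 hb, hab]
    obtain ⟨g, hg1, hg2⟩ := hloc (s '' B) (by rintro _ ⟨b, hb, rfl⟩; exact hs1 hb) (mk_image_le.trans hBc)
    refine sd_of_choice (fun b => g (s b)) (fun b hb => ?_) (fun a ha b hb hab => ?_)
    · have := hg1 (s b) ⟨b, hb, rfl⟩
      rwa [hs2 hb] at this
    · exact hinj ha hb (hg2 ⟨a, ha, rfl⟩ ⟨b, hb, rfl⟩ hab)
  have hcount : ∀ b : ℕ → D, {i ∈ E | c i = b}.Countable := by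
    intro b
    by_contra hc
    have h1 : ℵ₁ ≤ #{i ∈ E | c i = b} := by
      rw [← succ_aleph0]
      exact Order.succ_le_of_lt (not_le.1 fun h2 => hc (le_aleph0_iff_set_countable.1 h2))
    obtain ⟨J, hJ, hJ'⟩ := le_mk_iff_exists_subset.1 h1
    obtain ⟨g, hg1, hg2⟩ := hloc J (fun i hi => (hJ hi).1) (by rw [hJ']; exact aleph_one_le_continuum)
    have h3 : J.Countable := by
      refine countable_of_injective_of_countable_image hg2 ((pre_countable b).mono ?_)
      rintro _ ⟨i, hi, rfl⟩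
      have := hg1 i hi
      rwa [(hJ hi).2] at this
    have h4 := le_aleph0_iff_set_countable.2 h3
    rw [hJ', ← succ_aleph0] at h4
    exact absurd h4 (not_le.2 (Order.lt_succ _))
  obtain ⟨m, hm⟩ := choice_of_sd hsd
  let Φ : Finset (I ⊕ List D) → Set (I ⊕ List D) := fun e =>
    ⋃ l ∈ {l : List D | Sum.inr l ∈ e}, Sum.inl '' {i ∈ E | ini (c i) (m (c i)) = l}
  refine ⟨Φ, fun e => ?_, fun N hN i hi hiN => ⟨ini (c i) (m (c i)), ini_mem _ _, fun hc => hiN ?_⟩⟩
  · refine Countable.biUnion ((e.countable_toSet).preimage Sum.inr_injective) fun l _ => Countable.image ?_ _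
    by_cases hl : ∃ i ∈ E, ini (c i) (m (c i)) = l
    · obtain ⟨i, hi, hil⟩ := hl
      refine (hcount (c i)).mono ?_
      intro j hj
      have h1 : c j = c i := hm ⟨j, hj.1, rfl⟩ ⟨i, hi, rfl⟩ (hj.2.trans hil.symm)
      exact ⟨hj.1, h1⟩
    · refine countable_empty.mono ?_
      intro j hj
      exact absurd ⟨j, hj.1, hj.2⟩ hl
  · refine hN {Sum.inr (ini (c i) (m (c i)))} (Finset.singleton_nonempty _) (by simpa using hc) ?_
    exact mem_iUnion₂.2 ⟨ini (c i) (m (c i)), by simp, i, ⟨hi, rfl⟩, rfl⟩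

/-- RADO'S CONJECTURE AT THE CONTINUUM IMPLIES REFLECTION OF SIGMA-DISCRETENESS -/
theorem dr_of_rc (h : RC) : DR := by
  intro D A hA
  have hTR : TR.{0} := fun T _ _ h1 h2 => h T h1 h2
  obtain ⟨Φ, hΦ, hΦ'⟩ := transversal_rc hTR (Ω := (ℕ → D) ⊕ List D) (I := A) (fun a => Sum.inr '' pre (a : ℕ → D))
    (fun a => (pre_countable _).image _) (fun a => ⟨_, ini (a : ℕ → D) 0, ini_mem _ _, rfl⟩) (fun a => Sum.inl a)
    (fun J hJ => by
      obtain ⟨m, hm⟩ := choice_of_sd (hA (Subtype.val '' J) (by rintro _ ⟨a, _, rfl⟩; exact a.2) (mk_image_le.trans hJ))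
      refine ⟨fun a => Sum.inr (ini (a : ℕ → D) (m a)), fun a ha b hb hab => ?_, fun a _ => ⟨_, ini_mem _ _, rfl⟩⟩
      exact Subtype.ext (hm ⟨a, ha, rfl⟩ ⟨b, hb, rfl⟩ (Sum.inr_injective hab)))
  refine sd_of_clo A Φ hΦ fun N hN a ha haN => ?_
  have h1 := hΦ' N hN ⟨a, ha⟩ haN
  rw [not_subset] at h1
  obtain ⟨_, ⟨l, hl, rfl⟩, h2⟩ := h1
  exact ⟨l, hl, h2⟩

end Pool.Agent.Helper15.CQ
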