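import Pool.Agent.Helper15.CQ.DR

/-!
# The space of a set of sequences

`A` a set of sequences `ℕ → D`. The compact space `XX A ⊆ 2 ^ (List D ⊕ (ℕ → D))` consists of the isolated points
`xl A l` (`l` a list), the points `pa a` (`a ∈ A`), limits of the points of the initial segments of `a`,
and the point at infinity `z0`. If every set of at most continuum many members of `A` is sigma-discrete, then
`XX A` has property (*); if `XX A` is Corson then `A` is sigma-discrete.
-/

set_option autoImplicit false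

open Set Cardinal Topology Filter

namespace Pool.Agent.Helper15.CQ

open Pool.Agent.Helper19.QR (CV Clo pre)
open Pool.Agent.Helper93.EC (EmbedsC0 exists_agree)

/-- `X` embeds in a `Σ`-product of lines: `X` is Corson compact -/
def IsCorson (X : Type) [TopologicalSpace X] : Prop :=
  ∃ (Γ : Type) (f : X → Γ → ℝ), Continuous f ∧ Function.Injective f ∧ ∀ x, {γ | f x γ ≠ 0}.Countable

section

variable {D : Type}

open scoped Classical in
/-- the isolated point of a list -/
noncomputable def xl (A : Set (ℕ → D)) (l : List D) : List D ⊕ (ℕ → D) → Bool :=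
  Sum.elim (fun k => decide (k = l)) (fun a => decide (a ∈ A ∧ l ∈ pre a))

open scoped Classical in
/-- the point of a sequence -/
noncomputable def pa (a : ℕ → D) : List D ⊕ (ℕ → D) → Bool :=
  Sum.elim (fun _ => false) (fun b => decide (b = a))

/-- the point at infinity -/
def z0 : List D ⊕ (ℕ → D) → Bool := fun _ => false

@[simp] theorem xl_inl (A : Set (ℕ → D)) (l k : List D) : xl A l (Sum.inl k) = true ↔ k = l := by simp [xl]

@[simp] theorem xl_inr (A : Set (ℕ → D)) (l : List D) (a : ℕ → D) :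
    xl A l (Sum.inr a) = true ↔ a ∈ A ∧ l ∈ pre a := by simp [xl]

@[simp] theorem pa_inl (a : ℕ → D) (k : List D) : pa a (Sum.inl k) = false := rfl

@[simp] theorem pa_inr (a b : ℕ → D) : pa a (Sum.inr b) = true ↔ b = a := by simp [pa]

/-- the space -/
def XX (A : Set (ℕ → D)) : Set (List D ⊕ (ℕ → D) → Bool) :=
  {x | x = z0 ∨ (∃ a ∈ A, x = pa a) ∨ ∃ l, x = xl A l}

theorem pre_inter_finite {a b : ℕ → D} (h : a ≠ b) : (pre a ∩ pre b).Finite := by
  obtain ⟨k, hk⟩ := Function.ne_iff.1 h
  refine ((Set.finite_lt_nat k).image (ini a)).subset ?_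
  rintro l ⟨⟨n, hn⟩, ⟨m, hm⟩⟩
  have hn' : ini a n = l := hn
  have hm' : ini b m = l := hm
  refine ⟨n, ?_, hn'⟩
  by_contra hc
  exact hk ((ini_eq_ini (hn'.trans hm'.symm)).2 k (by simp only [mem_setOf_eq] at hc; omega))

theorem isClosed_XX (A : Set (ℕ → D)) : IsClosed (XX A) := by
  rw [← closure_subset_iff_isClosed]
  intro y hy
  by_cases h1 : ∃ l, y (Sum.inl l) = true
  · obtain ⟨l, hl⟩ := h1
    refine Or.inr (Or.inr ⟨l, funext fun j => ?_⟩)
    obtain ⟨x, hx, hxy⟩ := exists_agree hy (F := {Sum.inl l, j}) (by simp)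
    have hxl : x (Sum.inl l) = true := by rw [hxy _ (by simp), hl]
    rcases hx with rfl | ⟨a, -, rfl⟩ | ⟨k, rfl⟩
    · exact absurd hxl (by simp [z0])
    · exact absurd hxl (by simp)
    · rw [xl_inl] at hxl
      subst hxl
      exact (hxy _ (by simp)).symm
  · have h1' : ∀ l, y (Sum.inl l) = false := fun l => by
      simpa using fun h => h1 ⟨l, h⟩
    by_cases h2 : ∃ a, y (Sum.inr a) = true
    · obtain ⟨a, ha⟩ := h2
      have haA : a ∈ A := by
        obtain ⟨x, hx, hxy⟩ := exists_agree hy (F := {Sum.inr a}) (by simp)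
        have hxa : x (Sum.inr a) = true := by rw [hxy _ rfl, ha]
        rcases hx with rfl | ⟨b, hb, rfl⟩ | ⟨k, rfl⟩
        · exact absurd hxa (by simp [z0])
        · rw [pa_inr] at hxa
          rw [hxa]
          exact hb
        · rw [xl_inr] at hxa
          exact hxa.1
      refine Or.inr (Or.inl ⟨a, haA, funext fun j => ?_⟩)
      rcases j with l | b
      · rw [h1' l, pa_inl]
      · by_cases hb : b = a
        · subst hb
          rw [ha]
          exact ((pa_inr _ _).2 rfl).symm
        · have h3 : pa a (Sum.inr b) = false := by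
            rw [← Bool.not_eq_true, pa_inr]
            exact hb
          rw [h3]
          by_contra h4
          rw [Bool.not_eq_false] at h4
          obtain ⟨x, hx, hxy⟩ := exists_agree hy (F := {Sum.inr a, Sum.inr b} ∪ Sum.inl '' (pre a ∩ pre b))
            ((Set.toFinite _).union ((pre_inter_finite (Ne.symm hb)).image _))
          have hxa : x (Sum.inr a) = true := by rw [hxy _ (by simp), ha]
          have hxb : x (Sum.inr b) = true := by rw [hxy _ (by simp), h4]
          rcases hx with rfl | ⟨c, hc, rfl⟩ | ⟨k, rfl⟩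
          · exact absurd hxa (by simp [z0])
          · rw [pa_inr] at hxa hxb
            exact hb (hxb.trans hxa.symm)
          · rw [xl_inr] at hxa hxb
            have h5 := hxy (Sum.inl k) (Or.inr ⟨k, ⟨hxa.2, hxb.2⟩, rfl⟩)
            rw [h1' k] at h5
            have h6 : xl A k (Sum.inl k) = true := by simp
            rw [h5] at h6
            exact Bool.false_ne_true h6
    · refine Or.inl (funext fun j => ?_)
      rcases j with l | b
      · exact h1' l
      · simpa [z0] using fun h => h2 ⟨b, h⟩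

instance (A : Set (ℕ → D)) : CompactSpace (XX A) := isCompact_iff_compactSpace.1 (isClosed_XX A).isCompact

/-- zero or one -/
def bo (b : Bool) : ℝ := if b then 1 else 0

theorem continuous_bo : Continuous bo := continuous_of_discreteTopology

/-- the sequences with infinitely many initial segments in a small set -/
theorem mk_inf_le (L : Set (List D)) (hL : #L ≤ 𝔠) : #{a : ℕ → D | (pre a ∩ L).Infinite} ≤ 𝔠 := by
  have h1 : ∀ a : {a : ℕ → D | (pre a ∩ L).Infinite}, ∀ n : ℕ, ∃ l : L, ∃ k, n ≤ k ∧ (l : List D) = ini (a : ℕ → D) k := by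
    intro a n
    by_contra hc
    apply a.2
    refine ((Set.finite_lt_nat n).image (ini (a : ℕ → D))).subset ?_
    rintro l ⟨⟨k, hk⟩, hl⟩
    have hk' : ini (a : ℕ → D) k = l := hk
    refine ⟨k, ?_, hk'⟩
    by_contra hkn
    exact hc ⟨⟨l, hl⟩, k, not_lt.1 hkn, hk'.symm⟩
  choose F hF using h1
  have hinj : Function.Injective F := by
    intro a b hab
    apply Subtype.ext
    funext n
    obtain ⟨k, hk, hk'⟩ := hF a n
    obtain ⟨k', hk1, hk1'⟩ := hF b n
    rw [hab, hk1'] at hk'
    obtain ⟨h2, h3⟩ := ini_eq_ini hk'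
    exact (h3 n (by omega)).symm
  refine (mk_le_of_injective hinj).trans ?_
  rw [← power_def, mk_nat]
  exact (power_le_power_right hL).trans (by rw [continuum_power_aleph0])

/-- small closed sets embed in `c₀` -/
theorem small_embeds (A : Set (ℕ → D)) (hA : ∀ B ⊆ A, #B ≤ 𝔠 → SigmaDiscrete B) (A' : Set (XX A)) (hA' : #A' ≤ 𝔠) :
    EmbedsC0 (closure A') := by
  classical
  let L₀ : Set (List D) := {l | ∃ x ∈ A', (x : List D ⊕ (ℕ → D) → Bool) = xl A l}
  let A₀ : Set (ℕ → D) := {a | a ∈ A ∧ ∃ x ∈ A', (x : List D ⊕ (ℕ → D) → Bool) = pa a}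
  have hL₀ : #L₀ ≤ 𝔠 := by
    refine le_trans ?_ hA'
    choose F hF hF' using fun l : L₀ => l.2
    refine mk_le_of_injective (f := fun l : L₀ => (⟨F l, hF l⟩ : A')) fun l k hlk => ?_
    have h1 : F l = F k := congrArg Subtype.val hlk
    have h2 : xl A (l : List D) = xl A (k : List D) := by rw [← hF', ← hF', h1]
    have h3 : xl A (l : List D) (Sum.inl (l : List D)) = true := by simp
    rw [h2, xl_inl] at h3
    exact Subtype.ext h3
  have hA₀ : #A₀ ≤ 𝔠 := by
    refine le_trans ?_ hA'
    choose F hF hF' using fun a : A₀ => a.2.2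
    refine mk_le_of_injective (f := fun a : A₀ => (⟨F a, hF a⟩ : A')) fun a b hab => ?_
    have h1 : F a = F b := congrArg Subtype.val hab
    have h2 : pa (a : ℕ → D) = pa (b : ℕ → D) := by rw [← hF', ← hF', h1]
    have h3 : pa (a : ℕ → D) (Sum.inr (a : ℕ → D)) = true := by simp
    rw [h2, pa_inr] at h3
    exact Subtype.ext h3
  let B : Set (ℕ → D) := A₀ ∪ {a | a ∈ A ∧ (pre a ∩ L₀).Infinite}
  have hBA : B ⊆ A := by
    rintro a (h | h)
    · exact h.1
    · exact h.1
  have hB : #B ≤ 𝔠 := by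
    refine (mk_union_le _ _).trans ?_
    refine (add_le_add hA₀ ((mk_le_mk_of_subset fun a ha => ha.2).trans (mk_inf_le L₀ hL₀))).trans ?_
    rw [continuum_add_self]
  obtain ⟨m, hm⟩ := choice_of_sd (hA B hBA hB)
  -- points of the closure
  have hcl : ∀ a ∈ A, ∀ x ∈ closure A', (x : List D ⊕ (ℕ → D) → Bool) = pa a → a ∈ B := by
    intro a ha x hx hxa
    by_contra hc
    have h1 : ¬ (pre a ∩ L₀).Infinite := fun h => hc (Or.inr ⟨ha, h⟩)
    rw [not_infinite] at h1
    have h2 : pa a ∈ closure (Subtype.val '' A') := by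
      rw [← hxa]
      exact image_closure_subset_closure_image continuous_subtype_val ⟨x, hx, rfl⟩
    obtain ⟨_, ⟨y, hy, rfl⟩, hya⟩ := exists_agree h2 (F := {Sum.inr a} ∪ Sum.inl '' (pre a ∩ L₀))
      ((Set.finite_singleton _).union (h1.image _))
    have h3 : (y : List D ⊕ (ℕ → D) → Bool) (Sum.inr a) = true := by rw [hya _ (by simp)]; simp
    rcases y.2 with h4 | ⟨b, hb, h4⟩ | ⟨l, h4⟩
    · rw [h4] at h3
      exact absurd h3 (by simp [z0])
    · rw [h4, pa_inr] at h3
      rw [← h3] at h4
      exact hc (Or.inl ⟨ha, y, hy, h4⟩)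
    · rw [h4, xl_inr] at h3
      have h5 := hya (Sum.inl l) (Or.inr ⟨l, ⟨h3.2, y, hy, h4⟩, rfl⟩)
      rw [h4, pa_inl] at h5
      have h6 : xl A l (Sum.inl l) = true := by simp
      rw [h5] at h6
      exact Bool.false_ne_true h6
  let f : (List D ⊕ (ℕ → D) → Bool) → (List D ⊕ (ℕ → D)) → ℝ := fun x => Sum.elim (fun l => bo (x (Sum.inl l)))
    (fun a => (if a ∈ B then 1 else 0) * bo (x (Sum.inr a)) * ∏ n ∈ Finset.range (m a + 1), (1 - bo (x (Sum.inl (ini a n)))))
  have hf : Continuous f := by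
    refine continuous_pi fun j => ?_
    rcases j with l | a
    · exact continuous_bo.comp (continuous_apply _)
    · refine (continuous_const.mul (continuous_bo.comp (continuous_apply _))).mul ?_
      exact continuous_finset_prod _ fun n _ => continuous_const.sub (continuous_bo.comp (continuous_apply _))
  have f1 : ∀ x a, f x (Sum.inr a) ≠ 0 → a ∈ B ∧ x (Sum.inr a) = true ∧ ∀ n ≤ m a, x (Sum.inl (ini a n)) = false := by
    intro x a h
    have h' : (if a ∈ B then (1 : ℝ) else 0) * bo (x (Sum.inr a)) *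
        ∏ n ∈ Finset.range (m a + 1), (1 - bo (x (Sum.inl (ini a n)))) ≠ 0 := h
    rw [mul_ne_zero_iff, mul_ne_zero_iff, Finset.prod_ne_zero_iff] at h'
    refine ⟨?_, ?_, fun n hn => ?_⟩
    · by_contra hc
      exact h'.1.1 (if_neg hc)
    · by_contra hc
      exact h'.1.2 (by simp [bo, hc])
    · by_contra hc
      rw [Bool.not_eq_false] at hc
      exact h'.2 n (by simp; omega) (by simp [bo, hc])
  have f2 : ∀ x a, a ∈ B → x (Sum.inr a) = true → (∀ n ≤ m a, x (Sum.inl (ini a n)) = false) → f x (Sum.inr a) = 1 := by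
    intro x a h1 h2 h3
    show (if a ∈ B then (1 : ℝ) else 0) * bo (x (Sum.inr a)) *
        ∏ n ∈ Finset.range (m a + 1), (1 - bo (x (Sum.inl (ini a n)))) = 1
    rw [if_pos h1, h2, Finset.prod_eq_one]
    · simp [bo]
    · intro n hn
      rw [h3 n (by simp at hn; omega)]
      simp [bo]
  have f3 : ∀ x l, f x (Sum.inl l) ≠ 0 → x (Sum.inl l) = true := by
    intro x l h
    by_contra hc
    exact h (by show bo (x (Sum.inl l)) = 0; simp [bo, hc])
  have f4 : ∀ x l, x (Sum.inl l) = true → f x (Sum.inl l) = 1 := by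
    intro x l h
    show bo (x (Sum.inl l)) = 1
    simp [bo, h]
  have f5 : ∀ x j, f x j = 0 ∨ f x j = 1 := by
    intro x j
    rcases j with l | a
    · by_cases h : f x (Sum.inl l) = 0
      · exact Or.inl h
      · exact Or.inr (f4 x l (f3 x l h))
    · by_cases h : f x (Sum.inr a) = 0
      · exact Or.inl h
      · obtain ⟨h1, h2, h3⟩ := f1 x a h
        exact Or.inr (f2 x a h1 h2 h3)
  have hfin : ∀ x ∈ XX A, {j | f x j ≠ 0}.Finite := by
    intro x hx
    have h0 : {j | f x j ≠ 0} ⊆ Sum.inl '' {l | x (Sum.inl l) = true} ∪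
        Sum.inr '' {a | a ∈ B ∧ x (Sum.inr a) = true ∧ ∀ n ≤ m a, x (Sum.inl (ini a n)) = false} := by
      rintro (l | a) hj
      · exact Or.inl ⟨l, f3 x l hj, rfl⟩
      · exact Or.inr ⟨a, f1 x a hj, rfl⟩
    refine Set.Finite.subset (Set.Finite.union (Set.Finite.image _ ?_) (Set.Finite.image _ ?_)) h0
    · rcases hx with rfl | ⟨a, -, rfl⟩ | ⟨l, rfl⟩
      · simp [z0]
      · simp
      · refine (Set.finite_singleton l).subset fun k hk => ?_
        simpa using hk
    · rcases hx with rfl | ⟨b, -, rfl⟩ | ⟨l, rfl⟩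
      · simp [z0]
      · refine (Set.finite_singleton b).subset fun a ha => ?_
        simpa using ha.2.1
      · have h1 : ∀ a ∈ {a | a ∈ B ∧ xl A l (Sum.inr a) = true ∧ ∀ n ≤ m a, xl A l (Sum.inl (ini a n)) = false},
            ∃ k, l = ini a k ∧ m a < k := by
          rintro a ⟨-, h2, h3⟩
          rw [xl_inr] at h2
          obtain ⟨k, hk⟩ := h2.2
          have hk' : ini a k = l := hk
          refine ⟨k, hk'.symm, ?_⟩
          by_contra hc
          have h4 := h3 k (not_lt.1 hc)
          have h5 : xl A l (Sum.inl (ini a k)) = true := by rw [xl_inl]; exact hk'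
          rw [h4] at h5
          exact Bool.false_ne_true h5
        refine Set.Finite.of_finite_image (f := m) ((Set.finite_lt_nat l.length).subset ?_) ?_
        · rintro _ ⟨a, ha, rfl⟩
          obtain ⟨k, hk, hk'⟩ := h1 a ha
          rw [mem_setOf_eq, hk, ini_length]
          omega
        · intro a ha b hb hab
          obtain ⟨k, hk, hk'⟩ := h1 a ha
          obtain ⟨k', hk1, hk1'⟩ := h1 b hb
          obtain ⟨h2, h3⟩ := ini_eq_ini (hk.symm.trans hk1)
          refine hm ha.1 hb.1 ?_
          show ini a (m a) = ini b (m b)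
          rw [← hab, ini_eq_iff]
          intro n hn
          exact h3 n (by omega)
  refine ⟨List D ⊕ (ℕ → D), fun x => f x.1.1, hf.comp (continuous_subtype_val.comp continuous_subtype_val), ?_, ?_, 1, ?_⟩
  · intro x y hxy
    have hxy' : ∀ j, f x.1.1 j = f y.1.1 j := fun j => congrFun hxy j
    have hl : ∀ (x y : closure A') (l : List D), (∀ j, f x.1.1 j = f y.1.1 j) → x.1.1 = xl A l → y.1.1 = xl A l := by
      intro x y l h hx
      have h1 : f y.1.1 (Sum.inl l) = 1 := by
        rw [← h, hx]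
        exact f4 _ _ (by simp)
      have h2 := f3 y.1.1 l (by rw [h1]; exact one_ne_zero)
      rcases y.1.2 with h4 | ⟨b, hb, h4⟩ | ⟨k, h4⟩
      · rw [h4] at h2
        exact absurd h2 (by simp [z0])
      · rw [h4] at h2
        exact absurd h2 (by simp)
      · rw [h4, xl_inl] at h2
        rw [h4, h2]
    have hp : ∀ (x y : closure A') (a : ℕ → D), a ∈ A → (∀ j, f x.1.1 j = f y.1.1 j) → x.1.1 = pa a → y.1.1 = pa a := by
      intro x y a ha h hx
      have haB := hcl a ha x.1 x.2 hx
      have h1 : f y.1.1 (Sum.inr a) = 1 := by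
        rw [← h, hx]
        exact f2 _ _ haB (by simp) (by simp)
      have h2 := (f1 y.1.1 a (by rw [h1]; exact one_ne_zero)).2.1
      rcases y.1.2 with h4 | ⟨b, hb, h4⟩ | ⟨k, h4⟩
      · rw [h4] at h2
        exact absurd h2 (by simp [z0])
      · rw [h4, pa_inr] at h2
        rw [h4, h2]
      · have h5 := hl y x k (fun j => (h j).symm) h4
        rw [hx] at h5
        have h6 : xl A k (Sum.inl k) = true := by simp
        rw [← h5] at h6
        exact absurd h6 (by simp)
    apply Subtype.ext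
    apply Subtype.ext
    rcases x.1.2 with h4 | ⟨b, hb, h4⟩ | ⟨k, h4⟩
    · rcases y.1.2 with h5 | ⟨b, hb, h5⟩ | ⟨k, h5⟩
      · rw [h4, h5]
      · rw [h5]
        exact hp y x b hb (fun j => (hxy' j).symm) h5
      · rw [h5]
        exact hl y x k (fun j => (hxy' j).symm) h5
    · rw [h4]
      exact (hp x y b hb hxy' h4).symm
    · rw [h4]
      exact (hl x y k hxy' h4).symm
  · intro x
    have h1 : (fun _ => (0 : ℝ)) =ᶠ[cofinite] f x.1.1 := by
      have h2 := hfin x.1.1 x.1.2
      refine (h2.eventually_cofinite_notMem).mono fun j hj => ?_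
      simpa using (by simpa using hj : f x.1.1 j = 0).symm
    exact tendsto_const_nhds.congr' h1
  · intro x j
    show |f x.1.1 j| ≤ 1
    rcases f5 x.1.1 j with h | h
    · rw [h]; simp
    · rw [h]; simp

theorem tendsto_xl {A : Set (ℕ → D)} {a : ℕ → D} (ha : a ∈ A) : Tendsto (fun n => xl A (ini a n)) atTop (𝓝 (pa a)) := by
  rw [tendsto_pi_nhds]
  intro j
  apply tendsto_nhds_of_eventually_eq
  rcases j with l | b
  · filter_upwards [eventually_ge_atTop l.length] with n hn
    rw [pa_inl, ← Bool.not_eq_true, xl_inl]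
    rintro rfl
    rw [ini_length] at hn
    omega
  · by_cases hb : b = a
    · subst hb
      filter_upwards with n
      rw [(xl_inr A _ b).2 ⟨ha, ini_mem _ _⟩, (pa_inr b b).2 rfl]
    · have h3 : pa a (Sum.inr b) = false := by
        rw [← Bool.not_eq_true, pa_inr]
        exact hb
      have h4 := ((pre_inter_finite (Ne.symm hb)).preimage (f := ini a) (fun n _ m _ h => ini_inj h)).eventually_cofinite_notMem
      rw [Nat.cofinite_eq_atTop] at h4
      filter_upwards [h4] with n hn
      rw [h3, ← Bool.not_eq_true, xl_inr]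
      intro h5
      exact hn ⟨ini_mem _ _, h5.2⟩

/-- if the space of `A` is Corson then `A` is sigma-discrete -/
theorem sd_of_corson (A : Set (ℕ → D)) (h : IsCorson (XX A)) : SigmaDiscrete A := by
  classical
  obtain ⟨Γ, f, hf, hinj, hcount⟩ := h
  let z : XX A := ⟨z0, Or.inl rfl⟩
  let P : (ℕ → D) → XX A := fun a => if h : a ∈ A then ⟨pa a, Or.inr (Or.inl ⟨a, h, rfl⟩)⟩ else z
  have hP : ∀ a ∈ A, (P a : List D ⊕ (ℕ → D) → Bool) = pa a := fun a ha => by
    have : P a = ⟨pa a, Or.inr (Or.inl ⟨a, ha, rfl⟩)⟩ := dif_pos ha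
    rw [this]
  let Q : List D → XX A := fun l => ⟨xl A l, Or.inr (Or.inr ⟨l, rfl⟩)⟩
  let g : Γ → XX A → ℝ := fun γ x => f x γ - f z γ
  have hg : ∀ γ, Continuous (g γ) := fun γ => ((continuous_apply γ).comp hf).sub continuous_const
  have hgc : ∀ x, {γ | g γ x ≠ 0}.Countable := by
    intro x
    refine ((hcount x).union (hcount z)).mono fun γ hγ => ?_
    by_contra hc
    rw [mem_union, not_or] at hc
    apply hγ
    have h1 : f x γ = 0 := by simpa using hc.1
    have h2 : f z γ = 0 := by simpa using hc.2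
    show f x γ - f z γ = 0
    rw [h1, h2, sub_zero]
  have hsep : ∀ a ∈ A, ∃ γ, g γ (P a) ≠ 0 := by
    intro a ha
    by_contra hc
    simp only [not_exists, not_not] at hc
    have h1 : f (P a) = f z := funext fun γ => sub_eq_zero.1 (hc γ)
    have h2 := congrArg Subtype.val (hinj h1)
    rw [hP a ha] at h2
    have h3 := congrFun h2 (Sum.inr a)
    rw [(pa_inr a a).2 rfl] at h3
    exact absurd h3 (by simp [z, z0])
  have hlist : ∀ a ∈ A, ∃ γ n, g γ (P a) ≠ 0 ∧ g γ (Q (ini a n)) ≠ 0 := by
    intro a ha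
    obtain ⟨γ, hγ⟩ := hsep a ha
    have h1 : Tendsto (fun n => Q (ini a n)) atTop (𝓝 (P a)) := by
      rw [tendsto_subtype_rng, hP a ha]
      exact tendsto_xl ha
    have h2 := ((hg γ).tendsto (P a)).comp h1
    obtain ⟨n, hn⟩ := (h2.eventually_ne hγ).exists
    exact ⟨γ, n, hγ, hn⟩
  have hΓ : Nonempty Γ := by
    have h5 : f (Q []) ≠ f z := by
      intro h5
      have h6 := congrFun (congrArg Subtype.val (hinj h5)) (Sum.inl [])
      have h7 : xl A [] (Sum.inl []) = true := by simp
      have h8 : xl A [] (Sum.inl []) = false := h6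
      rw [h7] at h8
      exact absurd h8 (by simp)
    obtain ⟨γ, -⟩ := Function.ne_iff.1 h5
    exact ⟨γ⟩
  have hlist' : ∀ a, ∃ (γ : Γ) (n : ℕ), a ∈ A → g γ (P a) ≠ 0 ∧ g γ (Q (ini a n)) ≠ 0 := by
    intro a
    by_cases ha : a ∈ A
    · obtain ⟨γ, n, h⟩ := hlist a ha
      exact ⟨γ, n, fun _ => h⟩
    · exact ⟨hΓ.some, 0, fun h' => absurd h' ha⟩
  choose γ n hγn using hlist'
  have hone : ∀ δ : Γ, {a ∈ A | g δ (P a) ≠ 0}.Countable := by
    intro δ
    have h1 : {a ∈ A | g δ (P a) ≠ 0} ⊆ ⋃ k : ℕ, {a ∈ A | 1 / ((k : ℝ) + 1) ≤ |g δ (P a)|} := by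
      rintro a ⟨ha, ha'⟩
      obtain ⟨k, hk⟩ := exists_nat_one_div_lt (abs_pos.2 ha')
      exact mem_iUnion.2 ⟨k, ha, hk.le⟩
    refine (countable_iUnion fun k => ?_).mono h1
    have hopen : IsOpen {x | |g δ x| < 1 / ((k : ℝ) + 1)} := isOpen_lt (hg δ).abs continuous_const
    obtain ⟨U, hU, hU'⟩ := isOpen_induced_iff.1 hopen
    have hz : (z : List D ⊕ (ℕ → D) → Bool) ∈ U := by
      have : z ∈ {x | |g δ x| < 1 / ((k : ℝ) + 1)} := by
        show |f z δ - f z δ| < _
        rw [sub_self, abs_zero]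
        positivity
      rw [← hU'] at this
      exact this
    obtain ⟨F, u, hu, hu'⟩ := isOpen_pi_iff.1 hU _ hz
    refine (((F.finite_toSet).preimage (f := Sum.inr) (Sum.inr_injective.injOn)).subset ?_).countable
    rintro a ⟨ha, ha'⟩
    by_contra hc
    have h2 : (P a : List D ⊕ (ℕ → D) → Bool) ∈ U := by
      apply hu'
      intro j hj
      rw [hP a ha]
      have h3 : pa a j = z0 j := by
        rcases j with l | b
        · rfl
        · have h4 : b ≠ a := by
            rintro rfl
            exact hc hj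
          have h5 : pa a (Sum.inr b) = false := by
            rw [← Bool.not_eq_true, pa_inr]
            exact h4
          rw [h5]
          rfl
      rw [h3]
      exact (hu j hj).2
    have h3 : P a ∈ {x | |g δ x| < 1 / ((k : ℝ) + 1)} := by
      rw [← hU']
      exact h2
    exact absurd h3 (not_lt.2 ha')
  have hfib : ∀ l : List D, {a ∈ A | ini a (n a) = l}.Countable := by
    intro l
    refine ((hgc (Q l)).biUnion fun δ _ => hone δ).mono ?_
    rintro a ⟨ha, hal⟩
    have h1 := hγn a ha
    rw [hal] at h1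
    exact mem_iUnion₂.2 ⟨γ a, h1.2, ha, h1.1⟩
  refine sd_of_clo A (fun e => ⋃ l ∈ {l : List D | Sum.inr l ∈ e}, Sum.inl '' {a ∈ A | ini a (n a) = l}) ?_ ?_
  · intro e
    exact Countable.biUnion ((e.countable_toSet).preimage Sum.inr_injective) fun l _ => (hfib l).image _
  · intro N hN a ha haN
    refine ⟨ini a (n a), ini_mem _ _, fun hc => haN ?_⟩
    refine hN {Sum.inr (ini a (n a))} (Finset.singleton_nonempty _) (by simpa using hc) ?_
    exact mem_iUnion₂.2 ⟨ini a (n a), by simp, a, ⟨ha, rfl⟩, rfl⟩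

end

/-- THE CORSON HALF IMPLIES REFLECTION OF SIGMA-DISCRETENESS -/
theorem dr_of_corson (h : ∀ (X : Type) [TopologicalSpace X] [CompactSpace X] [T2Space X],
    (∀ A : Set X, #A ≤ 𝔠 → EmbedsC0 (closure A)) → IsCorson X) : DR := by
  intro D A hA
  exact sd_of_corson A (h (XX A) (small_embeds A hA))

end Pool.Agent.Helper15.CQ
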