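import Pool.Agent.Helper15.CQ.Tree

/-!
# Transversal compactness from clique reflection
-/

set_option autoImplicit false

open Cardinal Set

universe u

namespace Pool.Agent.Helper15.CQ

section Ext

variable {Ω I : Type u} {a : I → Set Ω} {nm : I → Ω} {idx : Set Ω → I}

/-- a node with one member -/
theorem node_single {M : Set Ω} (hM : Bad a nm idx M) : Node a nm idx {M} where
  countable := countable_singleton M
  bad := fun M' h => by rw [mem_singleton_iff.1 h]; exact hM
  chain := fun M₁ h₁ M₂ h₂ => by rw [mem_singleton_iff.1 h₁, mem_singleton_iff.1 h₂]; exact Or.inl subset_rfl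
  name := fun M₁ h₁ M₂ h₂ _ hne => absurd ((mem_singleton_iff.1 h₁).trans (mem_singleton_iff.1 h₂).symm) hne
  wf := fun D hD hne => by
    obtain ⟨x, hx⟩ := hne
    refine ⟨x, hx, fun y hy => ?_⟩
    rw [mem_singleton_iff.1 (hD hx), mem_singleton_iff.1 (hD hy)]
  top := ⟨M, rfl, fun M' h => by rw [mem_singleton_iff.1 h]⟩
  cont := fun M₁ h₁ h₂ => by
    obtain ⟨M₂, h₃, h₄⟩ := h₂
    rw [mem_singleton_iff.1 h₁, mem_singleton_iff.1 h₃] at h₄
    exact absurd h₄ (ssubset_irrefl _)

/-- adding a new top -/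
theorem node_insert (v : V a nm idx) {M : Set Ω} (hM : Bad a nm idx M) (h1 : top v ⊆ M) (h2 : nm (idx (top v)) ∈ M) :
    Node a nm idx (insert M v.1) := by
  have h3 : nm (idx (top v)) ∉ top v := (v.2.bad _ (top_mem v)).2.1
  have h4 : ∀ M' ∈ v.1, ¬ M ⊆ M' := fun M' hM' h => h3 (le_top' v hM' (h h2))
  have h5 : ∀ M' ∈ v.1, M' ⊆ M := fun M' hM' => (le_top' v hM').trans h1
  refine ⟨v.2.countable.insert M, ?_, ?_, ?_, ?_, ⟨M, mem_insert _ _, ?_⟩, ?_⟩
  · rintro M' (rfl | h)
    · exact hM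
    · exact v.2.bad M' h
  · rintro M₁ (rfl | h₁) M₂ (rfl | h₂)
    · exact Or.inl subset_rfl
    · exact Or.inr (h5 _ h₂)
    · exact Or.inl (h5 _ h₁)
    · exact v.2.chain _ h₁ _ h₂
  · rintro M₁ (rfl | h₁) M₂ (rfl | h₂) hs hne
    · exact absurd rfl hne
    · exact absurd hs (h4 _ h₂)
    · by_cases h6 : M₁ = top v
      · rw [h6]
        exact h2
      · exact h1 (v.2.name _ h₁ _ (top_mem v) (le_top' v h₁) h6)
    · exact v.2.name _ h₁ _ h₂ hs hne
  · intro D hD hne
    by_cases h6 : (D ∩ v.1).Nonempty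
    · obtain ⟨x, hx, hmin⟩ := v.2.wf _ inter_subset_right h6
      refine ⟨x, hx.1, fun M' hM' => ?_⟩
      rcases hD hM' with rfl | h7
      · exact h5 _ hx.2
      · exact hmin _ ⟨hM', h7⟩
    · obtain ⟨x, hx⟩ := hne
      refine ⟨x, hx, fun M' hM' => ?_⟩
      have h7 : ∀ y ∈ D, y = M := fun y hy => by
        rcases hD hy with h8 | h8
        · exact h8
        · exact absurd ⟨y, hy, h8⟩ h6
      rw [h7 x hx, h7 M' hM']
  · rintro M' (rfl | h)
    · exact subset_rfl
    · exact h5 _ h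
  · rintro M₁ (rfl | h₁) h₂ h₃
    · obtain ⟨M₂, h₄, h₅⟩ := h₃ (top v) (mem_insert_of_mem _ (top_mem v))
        ⟨h1, fun h => h3 (h h2)⟩
      rcases h₄ with rfl | h₄
      · exact absurd h₅.2 (ssubset_irrefl _)
      · exact absurd h₅.1 fun h => h.2 (le_top' v h₄)
    · obtain ⟨M₂, h₄, h₅⟩ := h₂
      have h6 : ∀ M' ∈ insert M v.1, M' ⊂ M₁ → M' ∈ v.1 := by
        rintro M' (rfl | h7) h8
        · exact absurd h8.1 (h4 _ h₁)
        · exact h7
      have h7 := v.2.cont M₁ h₁ ⟨M₂, h6 _ h₄ h₅, h₅⟩ fun M' hM' hlt => by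
        obtain ⟨M₃, h8, h9⟩ := h₃ M' (mem_insert_of_mem _ hM') hlt
        exact ⟨M₃, h6 _ h8 h9.2, h9⟩
      refine h7.trans (sUnion_subset_sUnion fun M' hM' => ?_)
      exact ⟨mem_insert_of_mem _ hM'.1, hM'.2⟩

theorem exists_ext (v : V a nm idx) {M : Set Ω} (hM : Bad a nm idx M) (h1 : top v ⊆ M) (h2 : nm (idx (top v)) ∈ M) :
    ∃ w : V a nm idx, Lt v w ∧ top w = M := by
  let w : V a nm idx := ⟨insert M v.1, node_insert v hM h1 h2⟩
  have h3 : nm (idx (top v)) ∉ top v := (v.2.bad _ (top_mem v)).2.1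
  have h4 : top w = M := by
    apply top_eq
    · exact mem_insert _ _
    · rintro M' (rfl | h)
      · exact subset_rfl
      · exact (le_top' v h).trans h1
  refine ⟨w, ⟨top v, mem_insert_of_mem _ (top_mem v), ?_, ?_⟩, h4⟩
  · rw [h4]
    rintro rfl
    exact h3 h2
  · ext M'
    constructor
    · intro h
      exact ⟨mem_insert_of_mem _ h, le_top' v h⟩
    · rintro ⟨rfl | h, h'⟩
      · exact absurd (h' h2) h3
      · exact h

/-- limits of increasing sequences of nodes -/
theorem exists_limit (s : ℕ → V a nm idx) (hs : ∀ k, Lt (s k) (s (k + 1))) {N : Set Ω} (hN : Bad a nm idx N)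
    (hU : N = ⋃ k, top (s k)) : ∃ t : V a nm idx, ∀ k, Lt (s k) t := by
  have hle : ∀ k l, k ≤ l → Le (s k) (s l) := by
    intro k l hkl
    induction l, hkl using Nat.le_induction with
    | base => exact Le.rfl' _
    | succ l _ ih => exact ih.trans (hs l).le
  have hsub : ∀ k l, k ≤ l → (s k).1 ⊆ (s l).1 := by
    intro k l hkl
    rw [(hle k l hkl).top_mem.2]
    exact fun _ h => h.1
  have htN : ∀ k, top (s k) ⊆ N := fun k => by rw [hU]; exact subset_iUnion (fun k => top (s k)) k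
  have hn : ∀ k, ∀ M ∈ (s k).1, M ⊆ N := fun k M hM => (le_top' _ hM).trans (htN k)
  have hn' : ∀ k, ∀ M ∈ (s k).1, ¬ N ⊆ M := by
    intro k M hM h
    exact ((s k).2.bad _ (top_mem (s k))).2.1 (le_top' _ hM (h (htN (k + 1) (hs k).nm_mem)))
  have hin : ∀ k l, ∀ M ∈ (s l).1, M ⊆ top (s k) → M ∈ (s k).1 := by
    intro k l M hM h
    rcases le_total k l with hkl | hkl
    · rw [(hle k l hkl).top_mem.2]
      exact ⟨hM, h⟩
    · exact hsub l k hkl hM
  have hbig : ∀ k l, ∀ M ∈ (s l).1, M ∉ (s k).1 → top (s k) ⊆ M := by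
    intro k l M hM h
    have h1 : M ∈ (s (max k l)).1 := hsub l _ (le_max_right _ _) hM
    have h2 : top (s k) ∈ (s (max k l)).1 := hsub k _ (le_max_left _ _) (top_mem _)
    rcases (s (max k l)).2.chain _ h2 _ h1 with h3 | h3
    · exact h3
    · exact absurd (hin k _ M h1 h3) h
  have key : Node a nm idx (insert N (⋃ k, (s k).1)) := by
    refine ⟨(countable_iUnion fun k => (s k).2.countable).insert N, ?_, ?_, ?_, ?_, ⟨N, mem_insert _ _, ?_⟩, ?_⟩
    · rintro M' (rfl | h)
      · exact hN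
      · obtain ⟨k, hk⟩ := mem_iUnion.1 h
        exact (s k).2.bad M' hk
    · rintro M₁ (rfl | h₁) M₂ (rfl | h₂)
      · exact Or.inl subset_rfl
      · obtain ⟨k, hk⟩ := mem_iUnion.1 h₂
        exact Or.inr (hn k _ hk)
      · obtain ⟨k, hk⟩ := mem_iUnion.1 h₁
        exact Or.inl (hn k _ hk)
      · obtain ⟨k, hk⟩ := mem_iUnion.1 h₁
        obtain ⟨l, hl⟩ := mem_iUnion.1 h₂
        exact (s (max k l)).2.chain _ (hsub k _ (le_max_left _ _) hk) _ (hsub l _ (le_max_right _ _) hl)
    · rintro M₁ (rfl | h₁) M₂ (rfl | h₂) hsu hne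
      · exact absurd rfl hne
      · obtain ⟨k, hk⟩ := mem_iUnion.1 h₂
        exact absurd hsu (hn' k _ hk)
      · obtain ⟨k, hk⟩ := mem_iUnion.1 h₁
        have h3 : M₁ ∈ (s (k + 1)).1 := hsub k _ (Nat.le_succ k) hk
        have h4 : M₁ ≠ top (s (k + 1)) := by
          rintro rfl
          exact (hs k).top_ne (subset_antisymm (le_top' _ (hs k).le.top_mem.1) (le_top' _ hk))
        exact htN _ ((s (k + 1)).2.name _ h3 _ (top_mem _) (le_top' _ h3) h4)
      · obtain ⟨k, hk⟩ := mem_iUnion.1 h₁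
        obtain ⟨l, hl⟩ := mem_iUnion.1 h₂
        exact (s (max k l)).2.name _ (hsub k _ (le_max_left _ _) hk) _ (hsub l _ (le_max_right _ _) hl) hsu hne
    · intro D hD hne
      by_cases h6 : ∃ k, (D ∩ (s k).1).Nonempty
      · obtain ⟨k, hk⟩ := h6
        obtain ⟨x, hx, hmin⟩ := (s k).2.wf _ inter_subset_right hk
        refine ⟨x, hx.1, fun M' hM' => ?_⟩
        rcases hD hM' with rfl | h7
        · exact hn k _ hx.2
        · obtain ⟨l, hl⟩ := mem_iUnion.1 h7
          by_cases h8 : M' ∈ (s k).1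
          · exact hmin _ ⟨hM', h8⟩
          · exact (le_top' _ hx.2).trans (hbig k l M' hl h8)
      · obtain ⟨x, hx⟩ := hne
        refine ⟨x, hx, fun M' hM' => ?_⟩
        have h7 : ∀ y ∈ D, y = N := fun y hy => by
          rcases hD hy with h8 | h8
          · exact h8
          · obtain ⟨l, hl⟩ := mem_iUnion.1 h8
            exact absurd ⟨l, y, hy, hl⟩ h6
        rw [h7 x hx, h7 M' hM']
    · rintro M' (rfl | h)
      · exact subset_rfl
      · obtain ⟨k, hk⟩ := mem_iUnion.1 h
        exact hn k _ hk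
    · rintro M₁ (rfl | h₁) h₂ h₃
      · intro x hx
        rw [hU] at hx
        obtain ⟨k, hk⟩ := mem_iUnion.1 hx
        exact ⟨top (s k), ⟨mem_insert_of_mem _ (mem_iUnion.2 ⟨k, top_mem _⟩), htN k, hn' k _ (top_mem _)⟩, hk⟩
      · obtain ⟨k, hk⟩ := mem_iUnion.1 h₁
        have h6 : ∀ M' ∈ insert N (⋃ k, (s k).1), M' ⊂ M₁ → M' ∈ (s k).1 := by
          rintro M' (rfl | h7) h8
          · exact absurd h8.1 (hn' k _ hk)
          · obtain ⟨l, hl⟩ := mem_iUnion.1 h7
            exact hin k l _ hl (h8.1.trans (le_top' _ hk))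
        obtain ⟨M₂, h₄, h₅⟩ := h₂
        have h7 := (s k).2.cont M₁ hk ⟨M₂, h6 _ h₄ h₅, h₅⟩ fun M' hM' hlt => by
          obtain ⟨M₃, h8, h9⟩ := h₃ M' (mem_insert_of_mem _ (mem_iUnion.2 ⟨k, hM'⟩)) hlt
          exact ⟨M₃, h6 _ h8 h9.2, h9⟩
        refine h7.trans (sUnion_subset_sUnion fun M' hM' => ?_)
        exact ⟨mem_insert_of_mem _ (mem_iUnion.2 ⟨k, hM'.1⟩), hM'.2⟩
  let t : V a nm idx := ⟨insert N (⋃ k, (s k).1), key⟩
  have htop : top t = N := by
    apply top_eq
    · exact mem_insert _ _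
    · rintro M' (rfl | h)
      · exact subset_rfl
      · obtain ⟨k, hk⟩ := mem_iUnion.1 h
        exact hn k _ hk
  refine ⟨t, fun k => ⟨top (s k), mem_insert_of_mem _ (mem_iUnion.2 ⟨k, top_mem _⟩), ?_, ?_⟩⟩
  · rw [htop]
    intro h
    exact hn' k _ (top_mem _) (by rw [h])
  · ext M'
    constructor
    · intro h
      exact ⟨mem_insert_of_mem _ (mem_iUnion.2 ⟨k, h⟩), le_top' _ h⟩
    · rintro ⟨rfl | h, h'⟩
      · exact absurd h' (hn' k _ (top_mem _))
      · obtain ⟨l, hl⟩ := mem_iUnion.1 h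
        exact hin k l _ hl h'

/-- the global argument: a colouring of the nodes without infinite monochromatic chains gives a function without bad closed sets -/
theorem global (hcof : ∀ A : Set Ω, A.Countable → ∃ M, A ⊆ M ∧ Bad a nm idx M) (f : V a nm idx → ℕ)
    (hf : ∀ n, Thin {e : Finset (V a nm idx) | ∀ v ∈ e, ∀ w ∈ e, Le v w ∨ Le w v} {v | f v = n}) :
    ∃ Φ : Finset Ω → Set Ω, (∀ e, (Φ e).Countable) ∧ ∀ N, Closed Φ N → N.Nonempty → ¬ Bad a nm idx N := by
  classical
  have hstart : ∀ x : Ω, ∃ v : V a nm idx, x ∈ top v := by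
    intro x
    obtain ⟨M, h1, h2⟩ := hcof {x} (countable_singleton x)
    refine ⟨⟨{M}, node_single h2⟩, ?_⟩
    rw [top_eq (M := M) (⟨{M}, node_single h2⟩ : V a nm idx) rfl (fun M' h => by rw [mem_singleton_iff.1 h])]
    exact h1 rfl
  choose start hstart using hstart
  have hext : ∀ (v : V a nm idx) (x : Ω), ∃ w : V a nm idx, Lt v w ∧ x ∈ top w := by
    intro v x
    obtain ⟨M, h1, h2⟩ := hcof (insert x (insert (nm (idx (top v))) (top v)))
      (((v.2.bad _ (top_mem v)).1.insert _).insert _)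
    obtain ⟨w, hw, hw'⟩ := exists_ext v h2 (fun y hy => h1 (mem_insert_of_mem _ (mem_insert_of_mem _ hy)))
      (h1 (mem_insert_of_mem _ (mem_insert _ _)))
    exact ⟨w, hw, by rw [hw']; exact h1 (mem_insert _ _)⟩
  choose ext hext1 hext2 using hext
  let col : V a nm idx → ℕ → V a nm idx := fun v n => if h : ∃ w, Lt v w ∧ f w = n then h.choose else v
  let Ψ : Finset (Ω ⊕ V a nm idx) → Set (Ω ⊕ V a nm idx) := fun e =>
    (⋃ v ∈ {v | Sum.inr v ∈ e}, Sum.inl '' top v) ∪ ((fun x => Sum.inr (start x)) '' {x | Sum.inl x ∈ e}) ∪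
      (⋃ v ∈ {v | Sum.inr v ∈ e}, (fun x => Sum.inr (ext v x)) '' {x | Sum.inl x ∈ e}) ∪
      (⋃ v ∈ {v | Sum.inr v ∈ e}, range fun n => Sum.inr (col v n))
  have hfin1 : ∀ e : Finset (Ω ⊕ V a nm idx), {v : V a nm idx | Sum.inr v ∈ e}.Countable := fun e =>
    (e.countable_toSet).preimage Sum.inr_injective
  have hfin2 : ∀ e : Finset (Ω ⊕ V a nm idx), {x : Ω | Sum.inl x ∈ e}.Countable := fun e =>
    (e.countable_toSet).preimage Sum.inl_injective
  have hΨ : ∀ e, (Ψ e).Countable := by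
    intro e
    refine ((Countable.union ?_ ?_).union ?_).union ?_
    · exact (hfin1 e).biUnion fun v _ => ((v.2.bad _ (top_mem v)).1).image _
    · exact (hfin2 e).image _
    · exact (hfin1 e).biUnion fun v _ => (hfin2 e).image _
    · exact (hfin1 e).biUnion fun v _ => countable_range _
  obtain ⟨Φ, hΦ, hproj⟩ := project Ψ hΨ
  refine ⟨Φ, hΦ, fun N hN hne hbad => ?_⟩
  obtain ⟨N', hN', hpre, -⟩ := hproj N hN
  have c1 : ∀ v, Sum.inr v ∈ N' → top v ⊆ N := by
    intro v hv x hx
    rw [← hpre]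
    refine hN' {Sum.inr v} (Finset.singleton_nonempty _) (by simpa using hv) ?_
    refine Or.inl (Or.inl (Or.inl ?_))
    exact mem_biUnion (x := v) (by simp) ⟨x, hx, rfl⟩
  have c2 : ∀ x ∈ N, Sum.inr (start x) ∈ N' := by
    intro x hx
    rw [← hpre] at hx
    refine hN' {Sum.inl x} (Finset.singleton_nonempty _) (by simpa using hx) ?_
    exact Or.inl (Or.inl (Or.inr ⟨x, by simp, rfl⟩))
  have c3 : ∀ v, Sum.inr v ∈ N' → ∀ x ∈ N, Sum.inr (ext v x) ∈ N' := by
    intro v hv x hx
    rw [← hpre] at hx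
    refine hN' {Sum.inr v, Sum.inl x} (by simp) (by
      intro z hz
      simp only [Finset.coe_insert, Finset.coe_singleton, mem_insert_iff, mem_singleton_iff] at hz
      rcases hz with rfl | rfl
      · exact hv
      · exact hx) ?_
    refine Or.inl (Or.inr ?_)
    exact mem_biUnion (x := v) (by simp) ⟨x, by simp, rfl⟩
  have c4 : ∀ v, Sum.inr v ∈ N' → ∀ n, Sum.inr (col v n) ∈ N' := by
    intro v hv n
    refine hN' {Sum.inr v} (Finset.singleton_nonempty _) (by simpa using hv) ?_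
    refine Or.inr ?_
    exact mem_biUnion (x := v) (by simp) ⟨n, rfl⟩
  obtain ⟨x, hx⟩ := hbad.1.exists_eq_range hne
  have hxN : ∀ k, x k ∈ N := fun k => by rw [hx]; exact mem_range_self k
  let S := {v : V a nm idx // Sum.inr v ∈ N'}
  let step : ℕ → S → S := fun k v => ⟨col (ext v.1 (x k)) (Nat.unpair k).1, c4 _ (c3 _ v.2 _ (hxN k)) _⟩
  let s : ℕ → S := fun n => Nat.rec ⟨start (x 0), c2 _ (hxN 0)⟩ step n
  have hs : ∀ k, s (k + 1) = step k (s k) := fun k => rfl
  have hcol : ∀ v n, Le v (col v n) := by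
    intro v n
    by_cases h : ∃ w, Lt v w ∧ f w = n
    · have : col v n = h.choose := dif_pos h
      rw [this]
      exact h.choose_spec.1.le
    · have : col v n = v := dif_neg h
      rw [this]
      exact Le.rfl' v
  have hlt : ∀ k, Lt (s k).1 (s (k + 1)).1 := by
    intro k
    rw [hs]
    exact (hext1 (s k).1 (x k)).trans_le (hcol _ _)
  have hU : N = ⋃ k, top (s k).1 := by
    apply subset_antisymm
    · intro y hy
      rw [hx] at hy
      obtain ⟨k, rfl⟩ := hy
      refine mem_iUnion.2 ⟨k + 1, ?_⟩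
      have h1 : Le (ext (s k).1 (x k)) (s (k + 1)).1 := by rw [hs]; exact hcol _ _
      exact le_top' _ h1.top_mem.1 (hext2 _ _)
    · exact iUnion_subset fun k => c1 _ (s k).2
  obtain ⟨t, ht⟩ := exists_limit (fun k => (s k).1) hlt hbad hU
  have hmono : ∀ k l, k < l → Lt (s k).1 (s l).1 := by
    intro k l hkl
    induction l, hkl using Nat.le_induction with
    | base => exact hlt k
    | succ l _ ih => exact ih.trans_le (hlt l).le
  have hinj : Function.Injective fun k => (s k).1 := by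
    intro k l hkl
    rcases lt_trichotomy k l with h | h | h
    · exact absurd (by simpa using congrArg top hkl) (hmono k l h).top_ne
    · exact h
    · exact absurd (by simpa using congrArg top hkl.symm) (hmono l k h).top_ne
  have hcolour : ∀ k, (Nat.unpair k).1 = f t → f (s (k + 1)).1 = f t := by
    intro k hk
    have h1 : Lt (ext (s k).1 (x k)) t := by
      have h2 : Le (ext (s k).1 (x k)) (s (k + 1)).1 := by rw [hs]; exact hcol _ _
      exact h2.trans_lt (ht (k + 1))
    have h2 : ∃ w, Lt (ext (s k).1 (x k)) w ∧ f w = (Nat.unpair k).1 := ⟨t, h1, hk.symm⟩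
    have h3 : (s (k + 1)).1 = h2.choose := by
      rw [hs]
      exact dif_pos h2
    rw [h3, h2.choose_spec.2, hk]
  have hfin := hf (f t) ((fun k => (s (k + 1)).1) '' {k | (Nat.unpair k).1 = f t}) (by
    rintro _ ⟨k, hk, rfl⟩
    exact hcolour k hk) (by
    intro e he v hv w hw
    obtain ⟨k, -, rfl⟩ := he hv
    obtain ⟨l, -, rfl⟩ := he hw
    rcases le_total k l with h | h
    · rcases h.eq_or_lt with rfl | h
      · exact Or.inl (Le.rfl' _)
      · exact Or.inl (hmono (k + 1) (l + 1) (by omega)).le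
    · rcases h.eq_or_lt with rfl | h
      · exact Or.inl (Le.rfl' _)
      · exact Or.inr (hmono (l + 1) (k + 1) (by omega)).le)
  have hinf : {k : ℕ | (Nat.unpair k).1 = f t}.Infinite := by
    refine infinite_of_injective_forall_mem (f := fun m : ℕ => Nat.pair (f t) m) ?_ ?_
    · intro m m' h
      simpa using congrArg (fun z => (Nat.unpair z).2) h
    · intro m
      simp
  exact hinf (hfin.of_finite_image fun k _ l _ h => by
    have h1 : k + 1 = l + 1 := hinj h
    omega)

end Ext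

/-- TRANSVERSAL COMPACTNESS from clique reflection -/
theorem transversal (hCR : CR.{u}) {Ω I : Type u} (a : I → Set Ω) (ha : ∀ i, (a i).Countable)
    (hne : ∀ i, (a i).Nonempty) (nm : I → Ω)
    (hJ : ∀ J : Set I, #J ≤ 𝔠 → ∃ h : I → Ω, InjOn h J ∧ ∀ i ∈ J, h i ∈ a i) :
    ∃ Φ : Finset Ω → Set Ω, (∀ e, (Φ e).Countable) ∧ ∀ N, Closed Φ N → ∀ i, nm i ∉ N → ¬ a i ⊆ N := by
  classical
  rcases isEmpty_or_nonempty I with hI | hI
  · exact ⟨fun _ => ∅, fun _ => countable_empty, fun N _ i => (hI.false i).elim⟩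
  have h0 : ∀ M : Set Ω, ∃ i : I, (∃ j, nm j ∉ M ∧ a j ⊆ M) → nm i ∉ M ∧ a i ⊆ M := by
    intro M
    by_cases h : ∃ j, nm j ∉ M ∧ a j ⊆ M
    · obtain ⟨j, hj⟩ := h
      exact ⟨j, fun _ => hj⟩
    · exact ⟨Classical.arbitrary I, fun h' => absurd h' h⟩
  choose idx hidx using h0
  -- it is enough to treat countable closed sets
  have red : (∃ Φ : Finset Ω → Set Ω, (∀ e, (Φ e).Countable) ∧ ∀ N, Closed Φ N → N.Nonempty → ¬ Bad a nm idx N) →
      ∃ Φ : Finset Ω → Set Ω, (∀ e, (Φ e).Countable) ∧ ∀ N, Closed Φ N → ∀ i, nm i ∉ N → ¬ a i ⊆ N := by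
    rintro ⟨Φ, h1, h2⟩
    refine ⟨Φ, h1, fun N hN i hi hsub => ?_⟩
    have h3 : cl Φ (a i) ⊆ N := cl_min hN hsub
    have h4 := hidx (cl Φ (a i)) ⟨i, fun h => hi (h3 h), subset_cl _⟩
    exact h2 (cl Φ (a i)) (closed_cl _) ((hne i).mono (subset_cl _)) ⟨countable_cl h1 (ha i), h4⟩
  by_cases hcof : ∀ A : Set Ω, A.Countable → ∃ M, A ⊆ M ∧ Bad a nm idx M
  · apply red
    have hcr := hCR (V a nm idx) {e | ∀ v ∈ e, ∀ w ∈ e, Le v w ∨ Le w v}
      (fun e he e' hsub v hv w hw => he v (hsub hv) w (hsub hw)) (by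
        intro W hW
        let J : Set I := ⋃ v ∈ W, idx '' v.1
        have hJc : #J ≤ 𝔠 := by
          refine (mk_biUnion_le (fun v : V a nm idx => idx '' v.1) W).trans ?_
          have h1 : ⨆ v : W, #(idx '' (v : V a nm idx).1) ≤ 𝔠 := by
            apply ciSup_le'
            intro v
            exact ((v.1.2.countable.image idx).le_aleph0).trans aleph0_le_continuum
          exact (mul_le_mul' hW h1).trans (by rw [continuum_mul_self])
        obtain ⟨h, hinj, hmem⟩ := hJ J hJc
        let h' : I → Ω := fun i => if i ∈ J then h i else (hne i).some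
        have h'J : ∀ i ∈ J, h' i = h i := fun i hi => if_pos hi
        have h'mem : ∀ i, h' i ∈ a i := by
          intro i
          by_cases hi : i ∈ J
          · rw [h'J i hi]
            exact hmem i hi
          · have : h' i = (hne i).some := if_neg hi
            rw [this]
            exact (hne i).some_mem
        have h'inj : InjOn h' J := by
          intro i hi j hj hij
          rw [h'J i hi, h'J j hj] at hij
          exact hinj hi hj hij
        have henc : ∀ M : Set Ω, ∃ e : Ω → ℕ, Bad a nm idx M → InjOn e M := by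
          intro M
          by_cases hM : Bad a nm idx M
          · obtain ⟨e, he⟩ := countable_iff_exists_injOn.1 hM.1
            exact ⟨e, fun _ => he⟩
          · exact ⟨fun _ => 0, fun h => absurd h hM⟩
        choose enc henc using henc
        let x : V a nm idx → Ω := fun v => h' (idx (top v))
        have hx : ∀ v, x v ∈ top v := fun v => (v.2.bad _ (top_mem v)).2.2 (h'mem _)
        choose F hF using exists_col x hx enc
        refine ⟨fun v => Encodable.encode (F v), fun n B hB hclique => ?_⟩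
        apply Set.Subsingleton.finite
        have key : ∀ v ∈ B, ∀ w ∈ B, Le v w → v = w := by
          intro v hv w hw hle
          have h1 : F v = F w := Encodable.encode_injective ((hB hv).2.trans (hB hw).2.symm)
          refine col_inj henc h'inj (x := x) (fun _ => rfl) (F v) v w (fun M hM => ?_) (hF v) (h1 ▸ hF w) hle
          exact mem_biUnion (hB hw).1 ⟨M, hM, rfl⟩
        intro v hv w hw
        have h1 : ({v, w} : Finset (V a nm idx)) ∈ {e : Finset (V a nm idx) | ∀ v ∈ e, ∀ w ∈ e, Le v w ∨ Le w v} := by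
          apply hclique
          intro z hz
          simp only [Finset.coe_insert, Finset.coe_singleton, mem_insert_iff, mem_singleton_iff] at hz
          rcases hz with rfl | rfl
          · exact hv
          · exact hw
        rcases h1 v (by simp) w (by simp) with h2 | h2
        · exact key v hv w hw h2
        · exact (key w hw v hv h2).symm)
    obtain ⟨f, hf⟩ := hcr
    exact global hcof f hf
  · apply red
    simp only [not_forall] at hcof
    obtain ⟨A, hA, hA'⟩ := hcof
    refine ⟨fun _ => A, fun _ => hA, fun N hN hNne hbad => hA' ⟨N, ?_, hbad⟩⟩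
    obtain ⟨x, hx⟩ := hNne
    exact hN {x} (Finset.singleton_nonempty _) (by simpa using hx)

end Pool.Agent.Helper15.CQ
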