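import Pool.Agent.Helper15.CQ.Closed

/-!
# The tree of countable continuous chains of bad sets
-/

set_option autoImplicit false

open Cardinal Set

universe u

namespace Pool.Agent.Helper15.CQ

section Tree

variable {Ω I : Type u} (a : I → Set Ω) (nm : I → Ω) (idx : Set Ω → I)

/-- bad countable sets -/
def Bad (M : Set Ω) : Prop := M.Countable ∧ nm (idx M) ∉ M ∧ a (idx M) ⊆ M

/-- nodes: countable continuous well ordered chains of bad sets with a top -/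
structure Node (C : Set (Set Ω)) : Prop where
  countable : C.Countable
  bad : ∀ M ∈ C, Bad a nm idx M
  chain : ∀ M ∈ C, ∀ M' ∈ C, M ⊆ M' ∨ M' ⊆ M
  name : ∀ M ∈ C, ∀ M' ∈ C, M ⊆ M' → M ≠ M' → nm (idx M) ∈ M'
  wf : ∀ D ⊆ C, D.Nonempty → ∃ M ∈ D, ∀ M' ∈ D, M ⊆ M'
  top : ∃ M ∈ C, ∀ M' ∈ C, M' ⊆ M
  cont : ∀ M ∈ C, (∃ M' ∈ C, M' ⊂ M) → (∀ M' ∈ C, M' ⊂ M → ∃ M'' ∈ C, M' ⊂ M'' ∧ M'' ⊂ M) → M ⊆ ⋃₀ {M' ∈ C | M' ⊂ M}

/-- initial segments -/
def seg (C : Set (Set Ω)) (M : Set Ω) : Set (Set Ω) := {M' ∈ C | M' ⊆ M}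

theorem seg_seg {C : Set (Set Ω)} {M M' : Set Ω} (h : M' ⊆ M) : seg (seg C M) M' = seg C M' := by
  ext x
  exact ⟨fun hx => ⟨hx.1.1, hx.2⟩, fun hx => ⟨⟨hx.1, hx.2.trans h⟩, hx.2⟩⟩

variable {a nm idx}

theorem Node.seg {C : Set (Set Ω)} (hC : Node a nm idx C) {M : Set Ω} (hM : M ∈ C) : Node a nm idx (seg C M) where
  countable := hC.countable.mono fun _ h => h.1
  bad := fun M' h => hC.bad M' h.1
  chain := fun M₁ h₁ M₂ h₂ => hC.chain M₁ h₁.1 M₂ h₂.1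
  name := fun M₁ h₁ M₂ h₂ => hC.name M₁ h₁.1 M₂ h₂.1
  wf := fun D hD => hC.wf D (hD.trans fun _ h => h.1)
  top := ⟨M, ⟨hM, subset_rfl⟩, fun _ h => h.2⟩
  cont := by
    intro M₁ h₁ h₂ h₃ x hx
    obtain ⟨M', hM', hM''⟩ := h₂
    obtain ⟨y, hy, hy'⟩ := hC.cont M₁ h₁.1 ⟨M', hM'.1, hM''⟩ (fun M₂ h₄ h₅ => by
      obtain ⟨M₃, h₆, h₇⟩ := h₃ M₂ ⟨h₄, h₅.1.trans h₁.2⟩ h₅
      exact ⟨M₃, h₆.1, h₇⟩) hx
    exact ⟨y, ⟨⟨hy.1, hy.2.1.trans h₁.2⟩, hy.2⟩, hy'⟩

/-- the type of nodes -/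
def V (a : I → Set Ω) (nm : I → Ω) (idx : Set Ω → I) : Type u := {C : Set (Set Ω) // Node a nm idx C}

/-- the top of a node -/
noncomputable def top (v : V a nm idx) : Set Ω := v.2.top.choose

theorem top_mem (v : V a nm idx) : top v ∈ v.1 := v.2.top.choose_spec.1

theorem le_top' (v : V a nm idx) {M : Set Ω} (h : M ∈ v.1) : M ⊆ top v := v.2.top.choose_spec.2 M h

theorem seg_top (v : V a nm idx) : seg v.1 (top v) = v.1 := by
  ext x
  exact ⟨fun h => h.1, fun h => ⟨h, le_top' v h⟩⟩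

theorem top_eq (v : V a nm idx) {M : Set Ω} (h : M ∈ v.1) (h' : ∀ M' ∈ v.1, M' ⊆ M) : top v = M :=
  subset_antisymm (h' _ (top_mem v)) (le_top' v h)

/-- end extension -/
def Le (v w : V a nm idx) : Prop := ∃ M ∈ w.1, v.1 = seg w.1 M

/-- proper end extension -/
def Lt (v w : V a nm idx) : Prop := ∃ M ∈ w.1, M ≠ top w ∧ v.1 = seg w.1 M

theorem Lt.le {v w : V a nm idx} (h : Lt v w) : Le v w := by
  obtain ⟨M, h1, _, h2⟩ := h
  exact ⟨M, h1, h2⟩

theorem top_of_seg {v w : V a nm idx} {M : Set Ω} (h : M ∈ w.1) (hv : v.1 = seg w.1 M) : top v = M := by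
  apply top_eq
  · rw [hv]
    exact ⟨h, subset_rfl⟩
  · intro M' hM'
    rw [hv] at hM'
    exact hM'.2

theorem Le.top_mem {v w : V a nm idx} (h : Le v w) : top v ∈ w.1 ∧ v.1 = seg w.1 (top v) := by
  obtain ⟨M, h1, h2⟩ := h
  rw [top_of_seg h1 h2]
  exact ⟨h1, h2⟩

theorem Lt.top_ne {v w : V a nm idx} (h : Lt v w) : top v ≠ top w := by
  obtain ⟨M, h1, h3, h2⟩ := h
  rw [top_of_seg h1 h2]
  exact h3

theorem Le.eq_of_top {v w : V a nm idx} (h : Le v w) (h' : top v = top w) : v = w := by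
  apply Subtype.ext
  rw [h.top_mem.2, h', seg_top]

theorem Le.lt_of_ne {v w : V a nm idx} (h : Le v w) (h' : top v ≠ top w) : Lt v w :=
  ⟨top v, h.top_mem.1, h', h.top_mem.2⟩

theorem Le.rfl' (v : V a nm idx) : Le v v := ⟨top v, Pool.Agent.Helper15.CQ.top_mem v, (seg_top v).symm⟩

theorem Le.trans {u v w : V a nm idx} (h : Le u v) (h' : Le v w) : Le u w := by
  obtain ⟨h1, h2⟩ := h.top_mem
  obtain ⟨h3, h4⟩ := h'.top_mem
  refine ⟨top u, ?_, ?_⟩
  · rw [h4] at h1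
    exact h1.1
  · rw [h2, h4, seg_seg (le_top' v h1)]

theorem Le.antisymm' {u v : V a nm idx} (h : Le u v) (h' : Le v u) : u = v :=
  h.eq_of_top (subset_antisymm (le_top' _ h.top_mem.1) (le_top' _ h'.top_mem.1))

theorem Lt.not_le {u v : V a nm idx} (h : Lt u v) : ¬ Le v u := fun h' => h.top_ne (by rw [h.le.antisymm' h'])

theorem Lt.trans_le {u v w : V a nm idx} (h : Lt u v) (h' : Le v w) : Lt u w := by
  refine (h.le.trans h').lt_of_ne fun h2 => ?_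
  have h3 := (h.le.trans h').eq_of_top h2
  rw [← h3] at h'
  exact h.not_le h'

theorem Le.trans_lt {u v w : V a nm idx} (h : Le u v) (h' : Lt v w) : Lt u w := by
  refine (h.trans h'.le).lt_of_ne fun h2 => ?_
  have h3 := (h.trans h'.le).eq_of_top h2
  rw [h3] at h
  exact h'.not_le h

theorem Le.total {u v w : V a nm idx} (h : Le u w) (h' : Le v w) : Le u v ∨ Le v u := by
  obtain ⟨h1, h2⟩ := h.top_mem
  obtain ⟨h3, h4⟩ := h'.top_mem
  rcases w.2.chain _ h1 _ h3 with h5 | h5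
  · left
    refine ⟨top u, ?_, ?_⟩
    · rw [h4]
      exact ⟨h1, h5⟩
    · rw [h4, seg_seg h5, ← h2]
  · right
    refine ⟨top v, ?_, ?_⟩
    · rw [h2]
      exact ⟨h3, h5⟩
    · rw [h2, seg_seg h5, ← h4]

theorem Lt.top_ssubset {u v : V a nm idx} (h : Lt u v) : top u ⊂ top v :=
  HasSubset.Subset.ssubset_of_ne (le_top' _ h.le.top_mem.1) h.top_ne

theorem Lt.nm_mem {u v : V a nm idx} (h : Lt u v) : nm (idx (top u)) ∈ top v :=
  v.2.name _ h.le.top_mem.1 _ (top_mem v) h.top_ssubset.1 h.top_ne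

theorem wf_lt : WellFounded (Lt (a := a) (nm := nm) (idx := idx)) := by
  rw [WellFounded.wellFounded_iff_has_min]
  intro A hA
  obtain ⟨v, hv⟩ := hA
  obtain ⟨M, ⟨hM, w, hw, hw'⟩, hmin⟩ := v.2.wf {M ∈ v.1 | ∃ w ∈ A, w.1 = seg v.1 M} (fun _ h => h.1)
    ⟨top v, top_mem v, v, hv, (seg_top v).symm⟩
  refine ⟨w, hw, fun u hu hlt => ?_⟩
  have h1 : top w = M := top_of_seg hM hw'
  obtain ⟨h2, h3⟩ := hlt.le.top_mem
  have h4 : top u ∈ v.1 := by
    rw [hw'] at h2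
    exact h2.1
  have h5 : top u ⊆ M := by
    rw [hw'] at h2
    exact h2.2
  have h6 := hmin (top u) ⟨h4, u, hu, by rw [h3, hw', seg_seg h5]⟩
  exact hlt.top_ne (by rw [h1]; exact subset_antisymm h5 h6)

/-! ### Small subfamilies are countable unions of antichains -/

/-- colours -/
inductive Col (x : V a nm idx → Ω) (enc : Set Ω → Ω → ℕ) : V a nm idx → List ℕ → Prop
  | nil (v : V a nm idx) : (∀ M ∈ v.1, M = top v) → Col x enc v []
  | zero (v s : V a nm idx) (l : List ℕ) (M : Set Ω) : M ∈ v.1 → M ≠ top v → s.1 = seg v.1 M →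
      (∀ M' ∈ v.1, M' ≠ top v → M' ⊆ M) → Col x enc s l → Col x enc v (0 :: l)
  | succ (v s : V a nm idx) (l : List ℕ) (M : Set Ω) : M ∈ v.1 → M ≠ top v → s.1 = seg v.1 M →
      x v ∈ M → Col x enc s l → Col x enc v ((enc M (x v) + 1) :: l)

theorem exists_col (x : V a nm idx → Ω) (hx : ∀ v, x v ∈ top v) (enc : Set Ω → Ω → ℕ) (v : V a nm idx) :
    ∃ l, Col x enc v l := by
  induction v using wf_lt.induction with
  | _ v ih =>
  by_cases h1 : ∃ M ∈ v.1, M ≠ top v ∧ x v ∈ M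
  · obtain ⟨M, hM, hM', hxM⟩ := h1
    obtain ⟨l, hl⟩ := ih ⟨seg v.1 M, v.2.seg hM⟩ ⟨M, hM, hM', rfl⟩
    exact ⟨_, Col.succ v _ l M hM hM' rfl hxM hl⟩
  by_cases h2 : ∀ M ∈ v.1, M = top v
  · exact ⟨[], Col.nil v h2⟩
  simp only [not_forall] at h2
  obtain ⟨M₀, hM₀, hM₀'⟩ := h2
  have h3 : ∃ M ∈ v.1, M ⊂ top v ∧ ∀ M' ∈ v.1, M' ⊂ top v → ¬ M ⊂ M' := by
    by_contra hc
    have h4 := v.2.cont (top v) (top_mem v)
      ⟨M₀, hM₀, HasSubset.Subset.ssubset_of_ne (le_top' v hM₀) hM₀'⟩ (fun M' hM' hlt => by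
        by_contra hc2
        apply hc
        refine ⟨M', hM', hlt, fun M'' hM'' hlt' hlt'' => hc2 ⟨M'', hM'', hlt'', hlt'⟩⟩)
    obtain ⟨y, ⟨hy, hy'⟩, hy''⟩ := h4 (hx v)
    exact h1 ⟨y, hy, hy'.ne, hy''⟩
  obtain ⟨M, hM, hlt, hmax⟩ := h3
  obtain ⟨l, hl⟩ := ih ⟨seg v.1 M, v.2.seg hM⟩ ⟨M, hM, hlt.ne, rfl⟩
  refine ⟨_, Col.zero v _ l M hM hlt.ne rfl (fun M' hM' hne => ?_) hl⟩
  rcases v.2.chain M hM M' hM' with h5 | h5
  · by_cases h6 : M = M'
    · rw [h6]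
    · exact absurd (HasSubset.Subset.ssubset_of_ne h5 h6)
        (hmax M' hM' (HasSubset.Subset.ssubset_of_ne (le_top' v hM') hne))
  · exact h5

theorem col_inj {x : V a nm idx → Ω} {enc : Set Ω → Ω → ℕ} (henc : ∀ M, Bad a nm idx M → InjOn (enc M) M)
    {J : Set I} {h : I → Ω} (hinj : InjOn h J) (hxh : ∀ v, x v = h (idx (top v))) :
    ∀ (l : List ℕ) (v w : V a nm idx), (∀ M ∈ w.1, idx M ∈ J) → Col x enc v l → Col x enc w l → Le v w → v = w := by
  intro l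
  induction l with
  | nil =>
    intro v w _ hv hw hle
    cases hw with
    | nil _ h2 =>
    exact hle.eq_of_top (h2 _ hle.top_mem.1)
  | cons n l ih =>
    intro v w hJ hv hw hle
    apply hle.eq_of_top
    by_contra hne
    have hT := hle.top_mem.1
    have key : ∀ (s s' : V a nm idx) (M M' : Set Ω), M ∈ v.1 → s.1 = seg v.1 M → M' ∈ w.1 → s'.1 = seg w.1 M' →
        Col x enc s l → Col x enc s' l → M = M' := by
      intro s s' M M' h1 h2 h3 h4 h5 h6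
      have h7 : Le s w := Le.trans ⟨M, h1, h2⟩ hle
      have h8 : Le s' w := ⟨M', h3, h4⟩
      have h9 : s = s' := by
        rcases h7.total h8 with h10 | h10
        · refine ih s s' (fun M₁ hM₁ => hJ M₁ ?_) h5 h6 h10
          rw [h4] at hM₁
          exact hM₁.1
        · refine (ih s' s (fun M₁ hM₁ => hJ M₁ ?_) h6 h5 h10).symm
          rw [h7.top_mem.2] at hM₁
          exact hM₁.1
      rw [← top_of_seg h1 h2, ← top_of_seg h3 h4, h9]
    cases hv with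
    | zero _ s _ M h1 h2 h3 h4 h5 =>
      cases hw with
      | zero _ s' _ M' h1' h2' h3' h4' h5' =>
        have h6 := key s s' M M' h1 h3 h1' h3' h5 h5'
        have h7 := h4' _ hT hne
        rw [← h6] at h7
        exact h2 (subset_antisymm (le_top' v h1) h7)
    | succ _ s _ M h1 h2 h3 h4 h5 =>
      generalize hk : enc M (x v) + 1 = k at hw
      cases hw with
      | zero _ s' _ M' h1' h2' h3' h4' h5' => omega
      | succ _ s' _ M' h1' h2' h3' h4' h5' =>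
        have h6 := key s s' M M' h1 h3 h1' h3' h5 h5'
        subst h6
        have h7 : x v = x w := henc M (w.2.bad M h1') h4 h4' (by omega)
        rw [hxh, hxh] at h7
        have h8 := hinj (hJ _ hT) (hJ _ (top_mem w)) h7
        have h9 : nm (idx (top v)) ∈ top w := (hle.lt_of_ne hne).nm_mem
        rw [h8] at h9
        exact (w.2.bad _ (top_mem w)).2.1 h9

end Tree

end Pool.Agent.Helper15.CQ
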